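import Pool.Agent.Pmj.Defs

set_option autoImplicit false

namespace Pool.Agent.Pmj

variable {V E : Type} [Fintype V] [DecidableEq V] [Fintype E] [DecidableEq E]
  {f : E → V × V} {T X Y : Finset V} {k m : ℕ}

-- BEGIN cut_mod
omit [Fintype V] in
/-- parity of the part of a set of edges in a cut -/
theorem cut_mod (f : E → V × V) (S : Finset E) (X : Finset V) :
    (S ∩ dl f X).card % 2 = (∑ v ∈ X, (S ∩ dl f {v}).card) % 2 := by
  have h1 : ∀ Y : Finset V, (S ∩ dl f Y).card = ∑ e ∈ S, if e ∈ dl f Y then 1 else 0 := by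
    intro Y
    rw [Finset.sum_boole, Nat.cast_id, ← Finset.filter_mem_eq_inter]
  rw [h1, Finset.sum_congr rfl fun v _ => h1 {v}, Finset.sum_comm, Finset.sum_nat_mod,
    Finset.sum_nat_mod S 2 (fun e => ∑ v ∈ X, if e ∈ dl f {v} then 1 else 0)]
  congr 1
  refine Finset.sum_congr rfl fun e _ => ?_
  simp only [mem_dl, Finset.mem_singleton]
  have h2 : ∀ v : V, (if ¬((f e).1 = v ↔ (f e).2 = v) then 1 else 0 : ℕ) % 2 =
      ((if v = (f e).1 then 1 else 0) + (if v = (f e).2 then 1 else 0)) % 2 := by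
    intro v
    by_cases h3 : (f e).1 = v <;> by_cases h4 : (f e).2 = v
    · simp [h3, h4]
    · simp [h3, h4, Ne.symm h4]
    · simp [h3, h4, Ne.symm h3]
    · simp [h3, h4, Ne.symm h3, Ne.symm h4]
  rw [Finset.sum_nat_mod, Finset.sum_congr rfl fun v _ => h2 v, ← Finset.sum_nat_mod,
    Finset.sum_add_distrib, Finset.sum_ite_eq', Finset.sum_ite_eq']
  by_cases h3 : (f e).1 ∈ X <;> by_cases h4 : (f e).2 ∈ X <;> simp [h3, h4]
-- END cut_mod

-- BEGIN TCol_cut
omit [Fintype V] in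
/-- every class of a colouring by `T`-joins meets a cut oddly iff it is a `T`-cut (use `cut_mod`) -/
theorem TCol_cut {c : E → Fin m} (hc : TCol f T m c) (i : Fin m) (X : Finset V) :
    Odd ((dl f X).filter fun e => c e = i).card ↔ Odd (X ∩ T).card := by
  set S : Finset E := Finset.univ.filter fun e => c e = i with hS
  have hmem : ∀ Z : Finset V, (dl f Z).filter (fun e => c e = i) = S ∩ dl f Z := by
    intro Z
    ext e
    rw [hS, Finset.mem_filter, Finset.mem_inter, Finset.mem_filter]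
    constructor
    · rintro ⟨h1, h2⟩
      exact ⟨⟨Finset.mem_univ _, h2⟩, h1⟩
    · rintro ⟨⟨_, h2⟩, h1⟩
      exact ⟨h1, h2⟩
  have h1 : Odd (S ∩ dl f X).card ↔ Odd (∑ v ∈ X, (S ∩ dl f {v}).card) := by
    rw [Nat.odd_iff, Nat.odd_iff, cut_mod]
  rw [hmem X, h1, Finset.odd_sum_iff_odd_card_odd]
  have h2 : X.filter (fun v => Odd (S ∩ dl f {v}).card) = X ∩ T := by
    ext v
    rw [Finset.mem_filter, Finset.mem_inter, ← hmem {v}, hc i v]
  rw [h2]
-- END TCol_cut

-- BEGIN compl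
omit [DecidableEq E] in
theorem dl_compl (f : E → V × V) (X : Finset V) : dl f Xᶜ = dl f X := by
  unfold dl
  apply Finset.filter_congr
  intro e _
  rw [Finset.mem_compl, Finset.mem_compl, not_iff_not]
  exact not_iff_not

omit [DecidableEq E] in
theorem d_compl (f : E → V × V) (X : Finset V) : d f Xᶜ = d f X := by
  unfold d
  rw [dl_compl]

theorem odd_compl (hT : Even T.card) (X : Finset V) : Odd (Xᶜ ∩ T).card ↔ Odd (X ∩ T).card := by
  have h : (X ∩ T).card + (Xᶜ ∩ T).card = T.card := by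
    rw [Finset.inter_comm X T, Finset.inter_comm Xᶜ T, ← Finset.sdiff_eq_inter_compl]
    exact Finset.card_inter_add_card_sdiff T X
  rw [← h, Nat.even_add] at hT
  rw [← Nat.not_even_iff_odd, ← Nat.not_even_iff_odd, hT]
-- END compl

-- BEGIN submod
omit [Fintype V] [DecidableEq E] in
/-- submodularity -/
theorem submod (f : E → V × V) (X Y : Finset V) : d f (X ∩ Y) + d f (X ∪ Y) ≤ d f X + d f Y := by
  simp only [d, dl, Finset.card_filter]
  rw [← Finset.sum_add_distrib, ← Finset.sum_add_distrib]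
  apply Finset.sum_le_sum
  intro e _
  by_cases a : (f e).1 ∈ X <;> by_cases b : (f e).2 ∈ X <;> by_cases c : (f e).1 ∈ Y <;>
    by_cases g : (f e).2 ∈ Y <;> simp [a, b, c, g]
-- END submod

-- BEGIN posimod
omit [Fintype V] [DecidableEq E] in
/-- posimodularity, with one edge between `X ∩ Y` and the outside of `X ∪ Y` -/
theorem posimod (f : E → V × V) (X Y : Finset V) {e : E}
    (h : ((f e).1 ∈ X ∩ Y ∧ (f e).2 ∉ X ∪ Y) ∨ ((f e).2 ∈ X ∩ Y ∧ (f e).1 ∉ X ∪ Y)) :
    d f (X \ Y) + d f (Y \ X) + 2 ≤ d f X + d f Y := by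
  classical
  have key : ∀ e' : E, (if ¬ ((f e').1 ∈ X \ Y ↔ (f e').2 ∈ X \ Y) then 1 else 0) +
      (if ¬ ((f e').1 ∈ Y \ X ↔ (f e').2 ∈ Y \ X) then 1 else 0) + (if e' = e then 2 else 0) ≤
      (if ¬ ((f e').1 ∈ X ↔ (f e').2 ∈ X) then 1 else 0) +
      (if ¬ ((f e').1 ∈ Y ↔ (f e').2 ∈ Y) then 1 else 0) := by
    intro e'
    simp only [Finset.mem_sdiff, Finset.mem_inter, Finset.mem_union] at h ⊢
    by_cases he : e' = e
    · subst he
      rcases h with ⟨⟨h1, h2⟩, h3⟩ | ⟨⟨h1, h2⟩, h3⟩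
      · rw [not_or] at h3
        simp [h1, h2, h3.1, h3.2]
      · rw [not_or] at h3
        simp [h1, h2, h3.1, h3.2]
    · rw [if_neg he, add_zero]
      by_cases a1 : (f e').1 ∈ X <;> by_cases a2 : (f e').2 ∈ X <;> by_cases a3 : (f e').1 ∈ Y <;>
        by_cases a4 : (f e').2 ∈ Y <;> simp [a1, a2, a3, a4]
  have h2 : (∑ e' : E, if e' = e then 2 else 0) = 2 := by simp
  unfold d dl
  simp only [Finset.card_filter]
  calc _ = ∑ e' : E, ((if ¬ ((f e').1 ∈ X \ Y ↔ (f e').2 ∈ X \ Y) then 1 else 0) +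
      (if ¬ ((f e').1 ∈ Y \ X ↔ (f e').2 ∈ Y \ X) then 1 else 0) + (if e' = e then 2 else 0)) := by
        rw [Finset.sum_add_distrib, Finset.sum_add_distrib, h2]
    _ ≤ _ := Finset.sum_le_sum fun e' _ => key e'
    _ = _ := by rw [Finset.sum_add_distrib]
-- END posimod

end Pool.Agent.Pmj
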