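import Mathlib

set_option autoImplicit false

/-!
# Grafts and colourings by `T`-joins: definitions

A multigraph is a map `f : E → V × V` (the ends of the edges, loops are ignored).
-/

namespace Pool.Agent.Pmj

variable {V E : Type} [Fintype V] [DecidableEq V] [Fintype E] [DecidableEq E]

/-- the edges with exactly one end in `X` -/
def dl (f : E → V × V) (X : Finset V) : Finset E :=
  Finset.univ.filter fun e => ¬ ((f e).1 ∈ X ↔ (f e).2 ∈ X)

/-- the number of edges with exactly one end in `X` -/
def d (f : E → V × V) (X : Finset V) : ℕ := (dl f X).card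

/-- the number of edges which are not loops -/
def nl (f : E → V × V) : ℕ := (Finset.univ.filter fun e => (f e).1 ≠ (f e).2).card

/-- all `T`-cuts have at least `k` edges, and `d X` has the parity of `k * |X ∩ T|` -/
structure Good (f : E → V × V) (T : Finset V) (k : ℕ) : Prop where
  even : Even T.card
  par : ∀ X : Finset V, d f X % 2 = k * (X ∩ T).card % 2
  cut : ∀ X : Finset V, Odd (X ∩ T).card → k ≤ d f X

/-- all colour classes are `T`-joins -/
def TCol (f : E → V × V) (T : Finset V) (m : ℕ) (c : E → Fin m) : Prop :=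
  ∀ (i : Fin m) (v : V), Odd ((dl f {v}).filter fun e => c e = i).card ↔ v ∈ T

/-- `e` joins `s` and `u` -/
def Jn (f : E → V × V) (e : E) (s u : V) : Prop := f e = (s, u) ∨ f e = (u, s)

/-- `e1 = su` and `e2 = sv` are replaced by `e1 = uv` and a loop `e2` -/
def spl (f : E → V × V) (e1 e2 : E) (s u v : V) : E → V × V :=
  fun e => if e = e1 then (u, v) else if e = e2 then (s, s) else f e

/-- all vertices outside `X` are identified with `x0` -/
def con (f : E → V × V) (X : Finset V) (x0 : V) : E → V × V :=
  fun e => (if (f e).1 ∈ X then (f e).1 else x0, if (f e).2 ∈ X then (f e).2 else x0)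

/-- the edges of `M` are made loops -/
def del (f : E → V × V) (M : Finset E) : E → V × V :=
  fun e => if e ∈ M then ((f e).1, (f e).1) else f e

/-- `M` is a perfect matching of `T` -/
def IsPM (f : E → V × V) (T : Finset V) (M : Finset E) : Prop :=
  ∀ v : V, (M ∩ dl f {v}).card = if v ∈ T then 1 else 0

/-- the simple graph on `T` -/
def sg (f : E → V × V) (T : Finset V) : SimpleGraph {v // v ∈ T} where
  Adj a b := a ≠ b ∧ ∃ e, Jn f e a.1 b.1
  symm := ⟨fun a b h => ⟨h.1.symm, by
    obtain ⟨e, h⟩ := h.2
    exact ⟨e, h.symm⟩⟩⟩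
  loopless := ⟨fun a h => h.1 rfl⟩

/-- the error term `(n - 2) / 2 * log2 ((n - 2) / 8)` -/
noncomputable def h (n : ℕ) : ℝ := ((n : ℝ) - 2) / 2 * Real.logb 2 (((n : ℝ) - 2) / 8)

omit [Fintype V] [DecidableEq E] in
theorem mem_dl {f : E → V × V} {X : Finset V} {e : E} :
    e ∈ dl f X ↔ ¬ ((f e).1 ∈ X ↔ (f e).2 ∈ X) := by
  simp [dl]

end Pool.Agent.Pmj
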