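import Pool.Agent.Pmj.Cut

set_option autoImplicit false

/-!
# Contraction and gluing
-/

namespace Pool.Agent.Pmj

variable {V E : Type} [Fintype V] [DecidableEq V] [Fintype E] [DecidableEq E]
  {f : E → V × V} {T X Y : Finset V} {k m m1 m2 : ℕ} {x0 x1 : V}

-- BEGIN dl_con
omit [DecidableEq E] in
theorem dl_con (f : E → V × V) (h0 : x0 ∉ X) (Y : Finset V) :
    dl (con f X x0) Y = dl f ((Y ∩ X) ∪ (if x0 ∈ Y then Xᶜ else ∅)) := by
  ext e
  rw [mem_dl, mem_dl]
  have key : ∀ v : V, (if v ∈ X then v else x0) ∈ Y ↔ v ∈ (Y ∩ X) ∪ (if x0 ∈ Y then Xᶜ else ∅) := by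
    intro v
    by_cases hv : v ∈ X <;> by_cases hY : x0 ∈ Y <;> simp [hv, hY]
  simp only [con]
  rw [key, key]
-- END dl_con

-- BEGIN dl_con_single
omit [DecidableEq E] in
theorem dl_con_single (f : E → V × V) (h0 : x0 ∉ X) {v : V} (hv : v ∈ X) :
    dl (con f X x0) {v} = dl f {v} := by
  have h1 : x0 ∉ ({v} : Finset V) := by
    rw [Finset.mem_singleton]
    rintro rfl
    exact h0 hv
  rw [dl_con f h0, if_neg h1, Finset.union_empty,
    Finset.inter_eq_left.2 (Finset.singleton_subset_iff.2 hv)]

omit [DecidableEq E] in
theorem dl_con_self (f : E → V × V) (h0 : x0 ∉ X) : dl (con f X x0) X = dl f X := by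
  rw [dl_con f h0, if_neg h0, Finset.union_empty, Finset.inter_self]
-- END dl_con_single

-- BEGIN Good_con
omit [DecidableEq E] in
/-- use `dl_con`; `|Y ∩ insert x0 (X ∩ T)|` and `|pre Y ∩ T|` have the same parity, because
`|Xᶜ ∩ T|` is odd -/
theorem Good_con (hg : Good f T k) (h0 : x0 ∉ X) (hX : Odd (X ∩ T).card) :
    Good (con f X x0) (insert x0 (X ∩ T)) k := by
  have hXc : Odd (Xᶜ ∩ T).card := (odd_compl hg.even X).2 hX
  have h0' : x0 ∉ X ∩ T := fun h => h0 (Finset.mem_inter.1 h).1
  have hpar : ∀ Y : Finset V, (Y ∩ insert x0 (X ∩ T)).card % 2 =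
      (((Y ∩ X) ∪ (if x0 ∈ Y then Xᶜ else ∅)) ∩ T).card % 2 := by
    intro Y
    by_cases hY : x0 ∈ Y
    · rw [if_pos hY, Finset.inter_insert_of_mem hY,
        Finset.card_insert_of_notMem (fun h => h0' (Finset.mem_inter.1 h).2),
        Finset.union_inter_distrib_right, Finset.card_union_of_disjoint, Finset.inter_assoc]
      · obtain ⟨j, hj⟩ := hXc
        omega
      · rw [Finset.disjoint_left]
        intro a ha hb
        simp only [Finset.mem_inter, Finset.mem_compl] at ha hb
        exact hb.1 ha.1.2
    · rw [if_neg hY, Finset.inter_insert_of_notMem hY, Finset.union_empty, Finset.inter_assoc]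
  have hd : ∀ Y : Finset V, d (con f X x0) Y = d f ((Y ∩ X) ∪ (if x0 ∈ Y then Xᶜ else ∅)) := by
    intro Y
    unfold d
    rw [dl_con f h0 Y]
  refine ⟨?_, fun Y => ?_, fun Y hodd => ?_⟩
  · rw [Finset.card_insert_of_notMem h0']
    exact hX.add_one
  · rw [hd Y, hg.par, Nat.mul_mod, ← hpar Y, ← Nat.mul_mod]
  · rw [hd Y]
    apply hg.cut
    rw [Nat.odd_iff] at hodd ⊢
    rw [← hpar Y]
    exact hodd
-- END Good_con

-- BEGIN nl_con
omit [Fintype V] [DecidableEq E] in
theorem nl_con (f : E → V × V) (X : Finset V) (x0 : V) : nl (con f X x0) ≤ nl f := by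
  refine Finset.card_le_card fun e he => ?_
  rw [Finset.mem_filter] at he ⊢
  refine ⟨Finset.mem_univ _, fun h => he.2 ?_⟩
  simp only [con, h]
-- END nl_con

-- BEGIN merge
/-- composition of maps with odd fibres -/
private theorem merge_comp {A B C : Type} [Fintype A] [Fintype B] [DecidableEq B] [DecidableEq C]
    (φ : A → B) (g : B → C)
    (hφ : ∀ b, Odd (Finset.univ.filter fun a => φ a = b).card)
    (hg : ∀ c, Odd (Finset.univ.filter fun b => g b = c).card) (c : C) :
    Odd (Finset.univ.filter fun a => g (φ a) = c).card := by
  have h1 : (Finset.univ.filter fun a => g (φ a) = c).card =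
      ∑ b ∈ Finset.univ.filter (fun b => g b = c), (Finset.univ.filter fun a => φ a = b).card := by
    rw [Finset.card_eq_sum_card_fiberwise (f := φ)
      (t := Finset.univ.filter (fun b => g b = c))]
    · refine Finset.sum_congr rfl fun b hb => ?_
      rw [Finset.filter_filter]
      congr 1
      ext a
      simp only [Finset.mem_filter, Finset.mem_univ, true_and] at hb ⊢
      constructor
      · exact fun h => h.2
      · exact fun h => ⟨by rw [h]; exact hb, h⟩
    · intro a ha
      simpa using ha
  rw [h1, Finset.odd_sum_iff_odd_card_odd]
  have h2 : (Finset.univ.filter (fun b => g b = c)).filter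
      (fun b => Odd (Finset.univ.filter fun a => φ a = b).card) =
      Finset.univ.filter (fun b => g b = c) := by
    refine Finset.filter_true_of_mem fun b _ => hφ b
  rw [h2]
  exact hg c

/-- a map from `m + 3` points to `m + 1` points which is constant on a set with three elements
containing `a`, `b`, `c`, with odd fibres -/
private theorem merge_map (m : ℕ) (a b c : Fin (m + 3)) :
    ∃ g : Fin (m + 3) → Fin (m + 1), g a = g b ∧ g a = g c ∧
      ∀ i, Odd (Finset.univ.filter fun x => g x = i).card := by
  obtain ⟨Z, hZ1, hZ2⟩ : ∃ Z : Finset (Fin (m + 3)), ({a, b, c} : Finset (Fin (m + 3))) ⊆ Z ∧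
      Z.card = 3 := by
    refine Finset.exists_superset_card_eq ?_ ?_
    · exact Finset.card_le_three
    · simp
  have hc : Fintype.card {x // x ∉ Z} = m := by
    rw [Fintype.card_subtype_compl]
    simp [hZ2]
  obtain ⟨w⟩ : Nonempty ({x // x ∉ Z} ≃ Fin m) := ⟨Fintype.equivFinOfCardEq hc⟩
  refine ⟨fun x => if hx : x ∈ Z then 0 else (w ⟨x, hx⟩).succ, ?_, ?_, ?_⟩
  · have ha : a ∈ Z := hZ1 (by simp)
    have hb : b ∈ Z := hZ1 (by simp)
    simp [ha, hb]
  · have ha : a ∈ Z := hZ1 (by simp)
    have hb : c ∈ Z := hZ1 (by simp)
    simp [ha, hb]
  · intro i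
    refine Fin.cases ?_ (fun j => ?_) i
    · have : (Finset.univ.filter fun x => (if hx : x ∈ Z then (0 : Fin (m + 1))
          else (w ⟨x, hx⟩).succ) = 0) = Z := by
        ext x
        by_cases hx : x ∈ Z
        · simp [hx]
        · simp [hx, Fin.succ_ne_zero]
      rw [this, hZ2]
      decide
    · have : (Finset.univ.filter fun x => (if hx : x ∈ Z then (0 : Fin (m + 1))
          else (w ⟨x, hx⟩).succ) = j.succ) = {(w.symm j).1} := by
        ext x
        by_cases hx : x ∈ Z
        · simp only [Finset.mem_filter, Finset.mem_univ, true_and, hx, dite_true,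
            Finset.mem_singleton]
          constructor
          · intro h
            exact absurd h.symm (Fin.succ_ne_zero j)
          · intro h
            exact absurd hx (by rw [h]; exact (w.symm j).2)
        · simp only [Finset.mem_filter, Finset.mem_univ, true_and, hx, dite_false,
            Finset.mem_singleton, Fin.succ_inj]
          constructor
          · intro h
            rw [← h]
            simp
          · intro h
            subst h
            simp
      rw [this]
      simp

omit [Fintype V] [DecidableEq V] [Fintype E] in
/-- Two maps with odd fibres. Proof: induction on `D.card - q`. If all fibres of `β` on `D` are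
singletons, then `q = D.card`, `m = p`, `φ = id`, `ψ j = α` of the element with `β = j`. Otherwise take
`x1 ≠ x2` in `D` in a fibre `j0` of `β` with at least three elements, change `β` to the new values `q`,
`q + 1` at `x1`, `x2` (as a map to `Fin (q + 2)`), take `φ'`, `ψ'` with `m + 2` colours, choose a set `Z`
of exactly three colours which contains the colours of `j0`, `q`, `q + 1`, and compose with a map
`Fin (m + 2) → Fin m` which is constant on `Z`, injective outside of `Z` and does not take the same
value on `Z` and outside of `Z`. -/
theorem merge : ∀ (n p q m : ℕ) (D : Finset E) (α : E → Fin p) (β : E → Fin q),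
    D.card - q ≤ n →
    (∀ i, Odd (D.filter fun e => α e = i).card) → (∀ j, Odd (D.filter fun e => β e = j).card) →
    p + q = D.card + m → 1 ≤ m →
    ∃ (φ : Fin p → Fin m) (ψ : Fin q → Fin m), (∀ e ∈ D, φ (α e) = ψ (β e)) ∧
      (∀ i, Odd (Finset.univ.filter fun j => φ j = i).card) ∧
      (∀ i, Odd (Finset.univ.filter fun j => ψ j = i).card) := by
  intro n
  induction n using Nat.strong_induction_on with
  | _ n ih =>
  intro p q m D α β hn hα hβ hpq hm
  have hsum : D.card = ∑ j : Fin q, (D.filter fun e => β e = j).card :=
    Finset.card_eq_sum_card_fiberwise (fun e _ => Finset.mem_univ _)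
  by_cases h1 : ∀ j, (D.filter fun e => β e = j).card = 1
  · have hq : D.card = q := by
      rw [hsum]
      simp [h1]
    obtain rfl : m = p := by omega
    have hu : ∀ j, ∃ e, (D.filter fun e => β e = j) = {e} := fun j => Finset.card_eq_one.mp (h1 j)
    choose s hs using hu
    have hsD : ∀ j, s j ∈ D := by
      intro j
      have : s j ∈ (D.filter fun e => β e = j) := by rw [hs]; simp
      exact (Finset.mem_filter.mp this).1
    have hsb : ∀ j, β (s j) = j := by
      intro j
      have : s j ∈ (D.filter fun e => β e = j) := by rw [hs]; simp
      exact (Finset.mem_filter.mp this).2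
    have hsu : ∀ e ∈ D, s (β e) = e := by
      intro e he
      have : e ∈ (D.filter fun e' => β e' = β e) := Finset.mem_filter.mpr ⟨he, rfl⟩
      rw [hs] at this
      exact (Finset.mem_singleton.mp this).symm
    refine ⟨id, fun j => α (s j), ?_, ?_, ?_⟩
    · intro e he
      simp only [id]
      rw [hsu e he]
    · intro i
      have : (Finset.univ.filter fun j => id j = i) = {i} := by
        ext j; simp
      rw [this]
      simp
    · intro i
      have : (Finset.univ.filter fun j => α (s j) = i).card =
          (D.filter fun e => α e = i).card := by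
        refine Finset.card_bij (fun j _ => s j) ?_ ?_ ?_
        · intro j hj
          simp only [Finset.mem_filter, Finset.mem_univ, true_and] at hj ⊢
          exact ⟨hsD j, hj⟩
        · intro j _ j' _ h
          rw [← hsb j, ← hsb j', h]
        · intro e he
          simp only [Finset.mem_filter] at he
          refine ⟨β e, ?_, hsu e he.1⟩
          simp only [Finset.mem_filter, Finset.mem_univ, true_and]
          rw [hsu e he.1]
          exact he.2
      rw [this]
      exact hα i
  · push Not at h1
    obtain ⟨j0, hj0⟩ := h1
    have h3 : 2 < (D.filter fun e => β e = j0).card := by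
      obtain ⟨r, hr⟩ := hβ j0
      omega
    obtain ⟨x1, x2, _, hx1, hx2, _, hne, _, _⟩ := Finset.two_lt_card_iff.mp h3
    simp only [Finset.mem_filter] at hx1 hx2
    have hDq : q + 2 ≤ D.card := by
      rw [hsum]
      have h4 : ∀ j : Fin q, 1 ≤ (D.filter fun e => β e = j).card := fun j => by
        obtain ⟨r, hr⟩ := hβ j
        omega
      have h5 : ∑ j : Fin q, (if j = j0 then 3 else 1) ≤
          ∑ j : Fin q, (D.filter fun e => β e = j).card := by
        refine Finset.sum_le_sum fun j _ => ?_
        split_ifs with h
        · subst h; omega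
        · exact h4 j
      have h6 : ∑ j : Fin q, (if j = j0 then 3 else 1) = q + 2 := by
        have : ∀ j : Fin q, (if j = j0 then 3 else 1) = 1 + (if j = j0 then 2 else 0) := by
          intro j; split_ifs <;> rfl
        simp only [this, Finset.sum_add_distrib]
        simp
      omega
    let β' : E → Fin (q + 2) := fun e =>
      if e = x1 then ⟨q, by omega⟩ else if e = x2 then ⟨q + 1, by omega⟩ else
        Fin.castAdd 2 (β e)
    have hβ'1 : β' x1 = ⟨q, by omega⟩ := by simp [β']
    have hβ'2 : β' x2 = ⟨q + 1, by omega⟩ := by simp [β', hne.symm]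
    have hβ'3 : ∀ e, e ≠ x1 → e ≠ x2 → β' e = Fin.castAdd 2 (β e) := by
      intro e h1 h2; simp [β', h1, h2]
    obtain ⟨m', rfl⟩ : ∃ m', m = m' + 1 := ⟨m - 1, by omega⟩
    have hβ' : ∀ j, Odd (D.filter fun e => β' e = j).card := by
      intro j
      by_cases hjq : j.1 < q
      · by_cases hj : (⟨j.1, hjq⟩ : Fin q) = j0
        · have h7 : (D.filter fun e => β' e = j) =
              ((D.filter fun e => β e = j0).erase x1).erase x2 := by
            ext e
            simp only [Finset.mem_filter, Finset.mem_erase]
            by_cases e1 : e = x1
            · subst e1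
              rw [hβ'1]
              constructor
              · rintro ⟨_, h⟩
                exact absurd (congrArg Fin.val h) (by simp; omega)
              · rintro ⟨_, h, _⟩
                exact absurd rfl h
            · by_cases e2 : e = x2
              · subst e2
                rw [hβ'2]
                constructor
                · rintro ⟨_, h⟩
                  exact absurd (congrArg Fin.val h) (by simp; omega)
                · rintro ⟨h, _⟩
                  exact absurd rfl h
              · rw [hβ'3 e e1 e2]
                constructor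
                · rintro ⟨h, h'⟩
                  refine ⟨e2, e1, h, ?_⟩
                  rw [← hj]
                  ext
                  simp [← h']
                · rintro ⟨_, _, h, h'⟩
                  refine ⟨h, ?_⟩
                  ext
                  simp [h', ← hj]
          rw [h7, Finset.card_erase_of_mem, Finset.card_erase_of_mem]
          · have := hβ j0
            obtain ⟨r, hr⟩ := this
            rw [hr] at h3 ⊢
            exact ⟨r - 1, by omega⟩
          · simp [hx1.1, hx1.2]
          · simp [hx2.1, hx2.2, hne.symm]
        · have h7 : (D.filter fun e => β' e = j) =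
              (D.filter fun e => β e = ⟨j.1, hjq⟩) := by
            ext e
            simp only [Finset.mem_filter]
            by_cases e1 : e = x1
            · subst e1
              rw [hβ'1, hx1.2]
              constructor
              · rintro ⟨_, h⟩
                exact absurd (congrArg Fin.val h) (by simp; omega)
              · rintro ⟨_, h⟩
                exact absurd h.symm hj
            · by_cases e2 : e = x2
              · subst e2
                rw [hβ'2, hx2.2]
                constructor
                · rintro ⟨_, h⟩
                  exact absurd (congrArg Fin.val h) (by simp; omega)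
                · rintro ⟨_, h⟩
                  exact absurd h.symm hj
              · rw [hβ'3 e e1 e2]
                constructor
                · rintro ⟨h, h'⟩
                  refine ⟨h, ?_⟩
                  ext
                  simp [← h']
                · rintro ⟨h, h'⟩
                  refine ⟨h, ?_⟩
                  ext
                  simp [h']
          rw [h7]
          exact hβ _
      · by_cases hj : j.1 = q
        · have h7 : (D.filter fun e => β' e = j) = {x1} := by
            ext e
            simp only [Finset.mem_filter, Finset.mem_singleton]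
            constructor
            · rintro ⟨h, h'⟩
              by_contra e1
              by_cases e2 : e = x2
              · subst e2
                rw [hβ'2] at h'
                have := congrArg Fin.val h'
                simp at this
                omega
              · rw [hβ'3 e e1 e2] at h'
                have := congrArg Fin.val h'
                simp at this
                have := (β e).2
                omega
            · rintro rfl
              refine ⟨hx1.1, ?_⟩
              rw [hβ'1]
              ext
              simp [hj]
          rw [h7]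
          simp
        · have hj' : j.1 = q + 1 := by have := j.2; omega
          have h7 : (D.filter fun e => β' e = j) = {x2} := by
            ext e
            simp only [Finset.mem_filter, Finset.mem_singleton]
            constructor
            · rintro ⟨h, h'⟩
              by_contra e2
              by_cases e1 : e = x1
              · subst e1
                rw [hβ'1] at h'
                have := congrArg Fin.val h'
                simp at this
                omega
              · rw [hβ'3 e e1 e2] at h'
                have := congrArg Fin.val h'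
                simp at this
                have := (β e).2
                omega
            · rintro rfl
              refine ⟨hx2.1, ?_⟩
              rw [hβ'2]
              ext
              simp [hj']
          rw [h7]
          simp
    obtain ⟨φ', ψ', h8, h9, h10⟩ := ih (n - 2) (by omega) p (q + 2) (m' + 3) D α β' (by omega) hα hβ'
      (by omega) (by omega)
    obtain ⟨g, hg1, hg2, hg3⟩ := merge_map m' (ψ' (Fin.castAdd 2 j0)) (ψ' ⟨q, by omega⟩)
      (ψ' ⟨q + 1, by omega⟩)
    refine ⟨fun i => g (φ' i), fun j => g (ψ' (Fin.castAdd 2 j)), ?_, ?_, ?_⟩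
    · intro e he
      have h11 := h8 e he
      by_cases e1 : e = x1
      · subst e1
        rw [hβ'1] at h11
        simp only [h11, hx1.2]
        exact hg1.symm
      · by_cases e2 : e = x2
        · subst e2
          rw [hβ'2] at h11
          simp only [h11, hx2.2]
          exact hg2.symm
        · rw [hβ'3 e e1 e2] at h11
          simp only [h11]
    · exact fun i => merge_comp φ' g h9 hg3 i
    · intro i
      have h12 := merge_comp ψ' g h10 hg3 i
      have h13 : (Finset.univ.filter fun j : Fin (q + 2) => g (ψ' j) = i).card =
          (Finset.univ.filter fun j : Fin q => g (ψ' (Fin.castAdd 2 j)) = i).card +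
          (if g (ψ' (Fin.castAdd 2 j0)) = i then 2 else 0) := by
        rw [Finset.card_filter, Finset.card_filter, Fin.sum_univ_castSucc, Fin.sum_univ_castSucc]
        have e1 : (Fin.last (q + 1)) = (⟨q + 1, by omega⟩ : Fin (q + 2)) := rfl
        have e2 : (Fin.last q).castSucc = (⟨q, by omega⟩ : Fin (q + 2)) := rfl
        rw [e1, e2, ← hg1, ← hg2]
        have e3 : ∀ j : Fin q, (j.castSucc.castSucc : Fin (q + 2)) = Fin.castAdd 2 j := fun j => rfl
        simp only [e3]
        split_ifs <;> ring
      rw [h13] at h12
      split_ifs at h12 with h14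
      · rw [Nat.odd_add] at h12
        exact h12.mpr (by decide)
      · simpa using h12
-- END merge

-- BEGIN glue
/-- Gluing. Take `φ`, `ψ` from `merge` with `D = dl f X`, `α = cA`, `β = cB` (the fibres are odd by
`TCol_cut` and `dl_con_self`; for `cB` also `dl_compl`) and colour `e` by `φ (cA e)` if `e` has an end
in `X`, by `ψ (cB e)` otherwise. For `v ∈ X` all edges at `v` have colour `φ (cA e)`, for `v ∉ X` all have
colour `ψ (cB e)`, use `dl_con_single`; the number of edges at `v` with `φ (cA e) = i` is a sum over
`j` with `φ j = i` of numbers with the parity of `[v ∈ T]`. -/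
theorem glue (hT : Even T.card) (hX : Odd (X ∩ T).card) (h0 : x0 ∉ X) (h1 : x1 ∈ X)
    {cA : E → Fin m1} (hA : TCol (con f X x0) (insert x0 (X ∩ T)) m1 cA)
    {cB : E → Fin m2} (hB : TCol (con f Xᶜ x1) (insert x1 (Xᶜ ∩ T)) m2 cB)
    (h : m1 + m2 = d f X + m) (hm : 1 ≤ m) : ∃ c : E → Fin m, TCol f T m c := by
  have h1' : x1 ∉ Xᶜ := fun h => Finset.mem_compl.1 h h1
  -- the fibres on the cut are odd
  have oA : ∀ i, Odd ((dl f X).filter fun e => cA e = i).card := by
    intro i
    have h2 := TCol_cut hA i X
    rw [dl_con_self f h0] at h2
    rw [h2, Finset.inter_insert_of_notMem h0, ← Finset.inter_assoc, Finset.inter_self]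
    exact hX
  have oB : ∀ i, Odd ((dl f X).filter fun e => cB e = i).card := by
    intro i
    have h2 := TCol_cut hB i Xᶜ
    rw [dl_con_self f h1', dl_compl] at h2
    rw [h2, Finset.inter_insert_of_notMem h1', ← Finset.inter_assoc, Finset.inter_self]
    exact (odd_compl hT X).2 hX
  obtain ⟨φ, ψ, hag, hφ, hψ⟩ := merge _ m1 m2 m (dl f X) cA cB le_rfl oA oB h hm
  -- a sum of an odd number of numbers of the same parity
  have key : ∀ {p : ℕ} (χ : Fin p → Fin m) (cc : E → Fin p) (S : Finset E) (P : Prop),
      (∀ i, Odd (Finset.univ.filter fun j => χ j = i).card) →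
      (∀ j, Odd (S.filter fun e => cc e = j).card ↔ P) → ∀ i,
        (Odd (S.filter fun e => χ (cc e) = i).card ↔ P) := by
    intro p χ cc S P hχ hcc i
    classical
    have h2 : (S.filter fun e => χ (cc e) = i).card =
        ∑ j ∈ Finset.univ.filter (fun j => χ j = i), (S.filter fun e => cc e = j).card := by
      rw [Finset.card_eq_sum_card_fiberwise (f := cc)
        (t := Finset.univ.filter fun j => χ j = i) (by
          intro e he
          rw [Finset.mem_coe, Finset.mem_filter] at he
          rw [Finset.mem_coe, Finset.mem_filter]
          exact ⟨Finset.mem_univ _, he.2⟩)]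
      refine Finset.sum_congr rfl fun j hj => ?_
      rw [Finset.filter_filter]
      congr 1
      ext e
      simp only [Finset.mem_filter]
      constructor
      · rintro ⟨h3, h4, h5⟩
        exact ⟨h3, h5⟩
      · rintro ⟨h3, h4⟩
        exact ⟨h3, by rw [h4]; exact (Finset.mem_filter.1 hj).2, h4⟩
    rw [h2, Nat.odd_iff, Finset.sum_nat_mod]
    by_cases hP : P
    · rw [Finset.sum_congr rfl fun j _ => Nat.odd_iff.1 ((hcc j).2 hP)]
      simp only [Finset.sum_const, smul_eq_mul, mul_one, hP, iff_true]
      exact Nat.odd_iff.1 (hχ i)
    · rw [Finset.sum_congr rfl fun j _ =>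
        (Nat.even_iff.1 (Nat.not_odd_iff_even.1 fun h => hP ((hcc j).1 h)))]
      simp [hP]
  refine ⟨fun e => if (f e).1 ∈ X ∨ (f e).2 ∈ X then φ (cA e) else ψ (cB e), fun i v => ?_⟩
  by_cases hv : v ∈ X
  · have h2 : ((dl f {v}).filter fun e =>
        (if (f e).1 ∈ X ∨ (f e).2 ∈ X then φ (cA e) else ψ (cB e)) = i) =
        (dl f {v}).filter fun e => φ (cA e) = i := by
      refine Finset.filter_congr fun e he => ?_
      rw [mem_dl] at he
      have h3 : (f e).1 ∈ X ∨ (f e).2 ∈ X := by
        by_contra h4
        push Not at h4
        refine he (iff_of_false ?_ ?_)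
        · intro h5
          rw [Finset.mem_singleton] at h5
          exact h4.1 (h5 ▸ hv)
        · intro h5
          rw [Finset.mem_singleton] at h5
          exact h4.2 (h5 ▸ hv)
      rw [if_pos h3]
    rw [h2]
    refine key φ cA _ _ hφ (fun j => ?_) i
    have h3 := hA j v
    rw [dl_con_single f h0 hv] at h3
    rw [h3, Finset.mem_insert, Finset.mem_inter]
    constructor
    · rintro (h4 | h4)
      · exact absurd (h4 ▸ hv) h0
      · exact h4.2
    · intro h4
      exact Or.inr ⟨hv, h4⟩
  · have hv' : v ∈ Xᶜ := Finset.mem_compl.2 hv
    have h2 : ((dl f {v}).filter fun e =>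
        (if (f e).1 ∈ X ∨ (f e).2 ∈ X then φ (cA e) else ψ (cB e)) = i) =
        (dl f {v}).filter fun e => ψ (cB e) = i := by
      refine Finset.filter_congr fun e he => ?_
      split_ifs with h3
      · rw [hag e ?_]
        rw [mem_dl] at he ⊢
        simp only [Finset.mem_singleton] at he
        intro h4
        rcases h3 with h3 | h3
        · have h5 := h4.1 h3
          exact he (iff_of_false (fun h6 => hv (h6 ▸ h3)) fun h6 => hv (h6 ▸ h5))
        · have h5 := h4.2 h3
          exact he (iff_of_false (fun h6 => hv (h6 ▸ h5)) fun h6 => hv (h6 ▸ h3))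
      · rfl
    rw [h2]
    refine key ψ cB _ _ hψ (fun j => ?_) i
    have h3 := hB j v
    rw [dl_con_single f h1' hv'] at h3
    rw [h3, Finset.mem_insert, Finset.mem_inter]
    constructor
    · rintro (h4 | h4)
      · exact absurd (h4 ▸ hv') h1'
      · exact h4.2
    · intro h4
      exact Or.inr ⟨hv', h4⟩
-- END glue

end Pool.Agent.Pmj
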