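import Pool.Agent.Pmj.Defs

set_option autoImplicit false

/-!
# The error term
-/

namespace Pool.Agent.Pmj

-- BEGIN h_add
private theorem h_add_log {s : ℝ} (h0 : 0 ≤ s) (h1 : s ≤ 1) : s ≤ Real.logb 2 (1 + s) := by
  rw [Real.le_logb_iff_rpow_le (by norm_num) (by linarith)]
  have h2 := rpow_one_add_le_one_add_mul_self (s := 1) (by norm_num) h0 h1
  rw [mul_one, show (1 : ℝ) + 1 = 2 by norm_num] at h2
  exact h2

private theorem h_add_real {x y : ℝ} (hx : 0 < x) (hxy : x ≤ y) :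
    x / 2 * Real.logb 2 (x / 8) + y / 2 * Real.logb 2 (y / 8) + x ≤
      (x + y) / 2 * Real.logb 2 ((x + y) / 8) := by
  have hy : 0 < y := lt_of_lt_of_le hx hxy
  have hs : 0 < x + y := by linarith
  rw [Real.logb_div hx.ne' (by norm_num), Real.logb_div hy.ne' (by norm_num),
    Real.logb_div hs.ne' (by norm_num)]
  have k1 : 1 ≤ Real.logb 2 (x + y) - Real.logb 2 x := by
    rw [← Real.logb_div hs.ne' hx.ne', Real.le_logb_iff_rpow_le (by norm_num) (by positivity),
      Real.rpow_one, le_div_iff₀ hx]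
    linarith
  have k2 : x / y ≤ Real.logb 2 (x + y) - Real.logb 2 y := by
    rw [← Real.logb_div hs.ne' hy.ne']
    have h1 := h_add_log (s := x / y) (by positivity) ((div_le_one hy).2 hxy)
    have h2 : (x + y) / y = 1 + x / y := by
      field_simp
      ring
    rw [h2]
    exact h1
  have k3 : x * 1 ≤ x * (Real.logb 2 (x + y) - Real.logb 2 x) :=
    mul_le_mul_of_nonneg_left k1 hx.le
  have k4 : x ≤ y * (Real.logb 2 (x + y) - Real.logb 2 y) := by
    have h1 := mul_le_mul_of_nonneg_left k2 hy.le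
    rwa [mul_div_cancel₀ _ hy.ne'] at h1
  linarith

/-- with `x = a - 2 ≤ y = b - 2`: `(x + y) log2 (x + y) ≥ x log2 x + y log2 y + 2 x`. (Concavity of the
binary entropy, or: `(x + y) log (x + y) - y log y` is increasing in `y`.) -/
theorem h_add {a b n : ℕ} (ha : 4 ≤ a) (hab : a ≤ b) (hn : a + b = n + 2) :
    h a + h b + ((a : ℝ) - 2) ≤ h n := by
  have ha' : (4 : ℝ) ≤ a := by exact_mod_cast ha
  have hab' : (a : ℝ) ≤ b := by exact_mod_cast hab
  have hn' : (a : ℝ) + b = n + 2 := by exact_mod_cast hn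
  have key := h_add_real (x := (a : ℝ) - 2) (y := (b : ℝ) - 2) (by linarith) (by linarith)
  have e : (n : ℝ) - 2 = ((a : ℝ) - 2) + ((b : ℝ) - 2) := by linarith
  unfold h
  rw [e]
  exact key
-- END h_add

-- BEGIN h_small
/-- `n = 4, 6, 8` by hand (`(3/4)^3 ≥ 1/4`), `n ≥ 10`: `h n ≥ 0`, `n = 2`: `h 2 = 0` -/
theorem h_lower {n : ℕ} (hn : Even n) (h2 : 2 ≤ n) : -2 ≤ h n := by
  have l2 : (0 : ℝ) < Real.log 2 := Real.log_pos (by norm_num)
  rcases Nat.lt_or_ge n 10 with h | h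
  · obtain ⟨r, rfl⟩ := hn
    have hr : r = 1 ∨ r = 2 ∨ r = 3 ∨ r = 4 := by omega
    rcases hr with rfl | rfl | rfl | rfl
    · simp [Pool.Agent.Pmj.h]
    · have h3 : Real.logb 2 (1 / 4) = -2 := by
        rw [show (1 / 4 : ℝ) = 2 ^ (-2 : ℝ) by
          rw [Real.rpow_neg (by norm_num)]; norm_num]
        exact Real.logb_rpow (by norm_num) (by norm_num)
      simp only [Pool.Agent.Pmj.h]
      push_cast
      rw [show ((4 : ℝ) - 2) / 8 = 1 / 4 by norm_num, h3]
      norm_num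
    · have h3 : Real.logb 2 (1 / 2) = -1 := by
        rw [show (1 / 2 : ℝ) = 2 ^ (-1 : ℝ) by
          rw [Real.rpow_neg (by norm_num)]; norm_num]
        exact Real.logb_rpow (by norm_num) (by norm_num)
      simp only [Pool.Agent.Pmj.h]
      push_cast
      rw [show ((6 : ℝ) - 2) / 8 = 1 / 2 by norm_num, h3]
      norm_num
    · simp only [Pool.Agent.Pmj.h]
      push_cast
      rw [show ((8 : ℝ) - 2) / 8 = 3 / 4 by norm_num, Real.logb]
      have h4 : Real.log ((3 / 4 : ℝ) ^ 3 * 2 ^ 2) ≥ 0 := Real.log_nonneg (by norm_num)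
      rw [Real.log_mul (by norm_num) (by norm_num), Real.log_pow, Real.log_pow] at h4
      push_cast at h4
      have h5 : ((8 : ℝ) - 2) / 2 * (Real.log (3 / 4) / Real.log 2) =
          (3 * Real.log (3 / 4)) / Real.log 2 := by ring
      rw [h5, le_div_iff₀ l2]
      linarith
  · have h3 : (10 : ℝ) ≤ n := by exact_mod_cast h
    have h4 : 0 ≤ Real.logb 2 (((n : ℝ) - 2) / 8) :=
      Real.logb_nonneg (by norm_num) (by linarith)
    have h5 : 0 ≤ ((n : ℝ) - 2) / 2 := by linarith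
    have h6 := mul_nonneg h5 h4
    simp only [Pool.Agent.Pmj.h]
    linarith

/-- `n = 2, 4, ..., 12` by hand: `(5/4)^5 < 4` -/
theorem h_small {n : ℕ} (hn : Even n) (h2 : 2 ≤ n) (h12 : n ≤ 12) : h n < 2 := by
  have l2 : (0 : ℝ) < Real.log 2 := Real.log_pos (by norm_num)
  rcases Nat.lt_or_ge n 12 with h | h
  · have h3 : (n : ℝ) ≤ 10 := by
      have : n ≤ 10 := by
        obtain ⟨r, hr⟩ := hn
        omega
      exact_mod_cast this
    have h4 : (2 : ℝ) ≤ n := by exact_mod_cast h2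
    have h5 : Real.logb 2 (((n : ℝ) - 2) / 8) ≤ 0 :=
      Real.logb_nonpos (by norm_num) (by linarith) (by linarith)
    have h6 := mul_nonpos_of_nonneg_of_nonpos (show 0 ≤ ((n : ℝ) - 2) / 2 by linarith) h5
    simp only [Pool.Agent.Pmj.h]
    linarith
  · have h3 : n = 12 := by omega
    subst h3
    simp only [Pool.Agent.Pmj.h]
    push_cast
    rw [show ((12 : ℝ) - 2) / 8 = 5 / 4 by norm_num, Real.logb]
    have h4 : Real.log ((5 / 4 : ℝ) ^ 5) < Real.log (2 ^ 2) :=
      Real.log_lt_log (by norm_num) (by norm_num)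
    rw [Real.log_pow, Real.log_pow] at h4
    push_cast at h4
    have h5 : ((12 : ℝ) - 2) / 2 * (Real.log (5 / 4) / Real.log 2) =
        (5 * Real.log (5 / 4)) / Real.log 2 := by ring
    rw [h5, div_lt_iff₀ l2]
    linarith

theorem exists_ell {n : ℕ} (hn : Even n) (h2 : 2 ≤ n) :
    ∃ l : ℕ, Even l ∧ h n < l ∧ (l : ℝ) ≤ h n + 2 := by
  rcases lt_or_ge (h n) 0 with h3 | h3
  · refine ⟨0, ⟨0, rfl⟩, by simpa using h3, ?_⟩
    have := h_lower hn h2
    push_cast
    linarith
  · refine ⟨2 * (⌊h n / 2⌋₊ + 1), even_two_mul _, ?_, ?_⟩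
    · have h4 := Nat.lt_floor_add_one (h n / 2)
      push_cast
      linarith
    · have h4 := Nat.floor_le (show 0 ≤ h n / 2 by linarith)
      push_cast
      linarith
-- END h_small

end Pool.Agent.Pmj
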