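import Pool.Agent.Pmj.Cut

set_option autoImplicit false

/-!
# Perfect matchings
-/

namespace Pool.Agent.Pmj

variable {V E : Type} [Fintype V] [DecidableEq V] [Fintype E] [DecidableEq E]
  {f : E → V × V} {T X Y : Finset V} {k k' m : ℕ}

-- BEGIN no_violator
/-- Let `C` be an odd component of the graph minus `u`. Its vertex set (as a subset of `V`) is `T`-odd, so
`d C ≥ k`, and all edges of `dl f C` have their other end in `u`. The sets `dl f C` are disjoint for
different `C` and contained in the union of the `dl f {y}`, `y ∈ u`: so `k * #C ≤ k * |u|`. -/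
theorem no_violator (hg : Good f T k) (hk : 1 ≤ k) (hreg : ∀ v ∈ T, d f {v} = k)
    (h0 : ∀ v ∉ T, d f {v} = 0) (u : Set {v // v ∈ T}) : ¬ (sg f T).IsTutteViolator u := by
  classical
  intro hviol
  unfold SimpleGraph.IsTutteViolator at hviol
  set H := ((⊤ : (sg f T).Subgraph).deleteVerts u).coe with hH
  have hV : ∀ z : {v // v ∈ T}, z ∈ ((⊤ : (sg f T).Subgraph).deleteVerts u).verts → z ∉ u := by
    intro z hz
    rw [SimpleGraph.Subgraph.deleteVerts_verts] at hz
    exact hz.2
  -- the vertex set of a component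
  let XC : H.ConnectedComponent → Finset V := fun c =>
    Finset.univ.filter fun v => ∃ x, H.connectedComponentMk x = c ∧ x.1.1 = v
  have mXC : ∀ c v, v ∈ XC c ↔ ∃ x, H.connectedComponentMk x = c ∧ x.1.1 = v := by
    intro c v
    simp [XC]
  have hnu : ∀ c v, v ∈ XC c → ∀ hv : v ∈ T, (⟨v, hv⟩ : {v // v ∈ T}) ∉ u := by
    intro c v h1 hv h2
    obtain ⟨x, -, hx⟩ := (mXC c v).1 h1
    subst hx
    exact hV x.1 x.2 h2
  have hsub : ∀ c, XC c ⊆ T := by
    intro c v h1
    obtain ⟨x, -, hx⟩ := (mXC c v).1 h1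
    exact hx ▸ x.1.2
  have hcard : ∀ c, (XC c ∩ T).card = c.supp.ncard := by
    intro c
    rw [Finset.inter_eq_left.2 (hsub c), ← Set.ncard_coe_finset]
    have h1 : ((XC c : Finset V) : Set V) = (fun x => x.1.1) '' c.supp := by
      ext v
      rw [Finset.mem_coe, mXC]
      simp only [Set.mem_image, SimpleGraph.ConnectedComponent.mem_supp_iff]
    rw [h1, Set.ncard_image_of_injective _ fun x y h => Subtype.ext (Subtype.ext h)]
  have hdisj : ∀ c c' v, v ∈ XC c → v ∈ XC c' → c = c' := by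
    intro c c' v h1 h2
    obtain ⟨x, h3, h4⟩ := (mXC c v).1 h1
    obtain ⟨y, h5, h6⟩ := (mXC c' v).1 h2
    have h7 : x = y := Subtype.ext (Subtype.ext (h4.trans h6.symm))
    rw [← h3, ← h5, h7]
  -- the other end is in `u`
  have hout : ∀ c p q e, Jn f e p q → p ∈ XC c → q ∉ XC c →
      ∃ hq : q ∈ T, (⟨q, hq⟩ : {v // v ∈ T}) ∈ u ∧ e ∈ dl f {q} := by
    intro c p q e he hp hq
    have hpq : p ≠ q := fun h => hq (h ▸ hp)
    have h1 : e ∈ dl f {q} := by
      rw [mem_dl]
      simp only [Finset.mem_singleton]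
      rcases he with he | he <;> rw [he] <;> simp [hpq]
    have hqT : q ∈ T := by
      by_contra h
      have h2 := h0 q h
      rw [d, Finset.card_eq_zero] at h2
      rw [h2] at h1
      simp at h1
    refine ⟨hqT, ?_, h1⟩
    by_contra hqu
    obtain ⟨x, h3, h4⟩ := (mXC c p).1 hp
    refine hq ((mXC c q).2 ⟨⟨⟨q, hqT⟩, by
      rw [SimpleGraph.Subgraph.deleteVerts_verts]
      exact ⟨trivial, hqu⟩⟩, ?_, rfl⟩)
    rw [← h3]
    refine (SimpleGraph.ConnectedComponent.connectedComponentMk_eq_of_adj ?_).symm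
    rw [hH, SimpleGraph.Subgraph.coe_adj, SimpleGraph.Subgraph.deleteVerts_adj]
    refine ⟨trivial, hV x.1 x.2, trivial, hqu, ?_⟩
    rw [SimpleGraph.Subgraph.top_adj]
    refine ⟨fun h => hpq ?_, e, ?_⟩
    · rw [← h4, h]
    · rw [h4]
      exact he
  -- count
  let O : Finset H.ConnectedComponent := Finset.univ.filter fun c => Odd c.supp.ncard
  let U : Finset V := Finset.univ.filter fun v => ∃ hv : v ∈ T, (⟨v, hv⟩ : {v // v ∈ T}) ∈ u
  have hO : H.oddComponents.ncard = O.card := by
    rw [← Set.ncard_coe_finset]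
    congr 1
    ext c
    simp [O]
  have hU : U.card = u.ncard := by
    rw [← Set.ncard_coe_finset]
    have h1 : ((U : Finset V) : Set V) = (fun x => x.1) '' u := by
      ext v
      simp only [U, Finset.coe_filter, Finset.mem_univ, true_and, Set.mem_setOf_eq, Set.mem_image,
        Subtype.exists, exists_and_right, exists_eq_right]
    rw [h1, Set.ncard_image_of_injective _ Subtype.val_injective]
  have hends : ∀ c e, e ∈ dl f (XC c) → ∃ p q, Jn f e p q ∧ p ∈ XC c ∧ q ∉ XC c := by
    intro c e he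
    rw [mem_dl] at he
    by_cases h1 : (f e).1 ∈ XC c
    · by_cases h2 : (f e).2 ∈ XC c
      · exact absurd (iff_of_true h1 h2) he
      · exact ⟨_, _, Or.inl rfl, h1, h2⟩
    · by_cases h2 : (f e).2 ∈ XC c
      · exact ⟨_, _, Or.inr rfl, h2, h1⟩
      · exact absurd (iff_of_false h1 h2) he
  have h1 : k * O.card ≤ ∑ c ∈ O, (dl f (XC c)).card := by
    rw [mul_comm, ← smul_eq_mul]
    refine Finset.card_nsmul_le_sum _ _ _ fun c hc => hg.cut (XC c) ?_
    rw [hcard]
    exact (Finset.mem_filter.1 hc).2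
  have h2 : ∑ c ∈ O, (dl f (XC c)).card = (O.biUnion fun c => dl f (XC c)).card := by
    rw [Finset.card_biUnion]
    intro c hc c' hc' hcc
    change Disjoint (dl f (XC c)) (dl f (XC c'))
    rw [Finset.disjoint_left]
    intro e he he'
    obtain ⟨p, q, h3, h4, h5⟩ := hends c e he
    obtain ⟨p', q', h3', h4', h5'⟩ := hends c' e he'
    obtain ⟨hq, hqu, -⟩ := hout c p q e h3 h4 h5
    have h6 : p' = p ∨ p' = q := by
      rcases h3 with h3 | h3 <;> rcases h3' with h3' | h3' <;> rw [h3] at h3' <;>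
        simp only [Prod.mk.injEq] at h3'
      · exact Or.inl h3'.1.symm
      · exact Or.inr h3'.2.symm
      · exact Or.inr h3'.1.symm
      · exact Or.inl h3'.2.symm
    rcases h6 with h6 | h6
    · exact hcc (hdisj c c' p h4 (h6 ▸ h4'))
    · exact hnu c' q (h6 ▸ h4') hq hqu
  have h3 : (O.biUnion fun c => dl f (XC c)).card ≤ (U.biUnion fun y => dl f {y}).card := by
    refine Finset.card_le_card fun e he => ?_
    rw [Finset.mem_biUnion] at he ⊢
    obtain ⟨c, -, he⟩ := he
    obtain ⟨p, q, h3, h4, h5⟩ := hends c e he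
    obtain ⟨hq, hqu, h6⟩ := hout c p q e h3 h4 h5
    exact ⟨q, Finset.mem_filter.2 ⟨Finset.mem_univ _, hq, hqu⟩, h6⟩
  have h4 : (U.biUnion fun y => dl f {y}).card ≤ U.card * k :=
    Finset.card_biUnion_le_card_mul _ _ _ fun y hy => by
      obtain ⟨hyT, -⟩ := (Finset.mem_filter.1 hy).2
      exact (hreg y hyT).le
  have h5 : k * O.card ≤ k * U.card := by
    rw [mul_comm k U.card]
    omega
  have h6 := Nat.le_of_mul_le_mul_left h5 hk
  rw [hO, ← hU] at hviol
  omega
-- END no_violator

-- BEGIN pm_of_sg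
omit [Fintype V] in
/-- choose an edge for every edge of the perfect matching of the simple graph -/
theorem pm_of_sg (h0 : ∀ v ∉ T, d f {v} = 0) {N : (sg f T).Subgraph}
    (hN : N.IsPerfectMatching) : ∃ M : Finset E, IsPM f T M := by
  classical
  have hex : ∀ x : N.edgeSet, ∃ e : E, ∃ a b : {v // v ∈ T}, x.1 = s(a, b) ∧ Jn f e a.1 b.1 := by
    rintro ⟨x, hx⟩
    induction x using Sym2.ind with
    | _ a b =>
      rw [SimpleGraph.Subgraph.mem_edgeSet] at hx
      obtain ⟨_, e, he⟩ := N.adj_sub hx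
      exact ⟨e, a, b, rfl, he⟩
  choose g hg using hex
  refine ⟨Finset.univ.filter fun e => ∃ x : N.edgeSet, g x = e, fun v => ?_⟩
  split_ifs with hv
  · obtain ⟨w, hw, hwu⟩ := hN.1 (hN.2 ⟨v, hv⟩)
    have hwu' : ∀ y, N.Adj ⟨v, hv⟩ y → y = w := fun y hy => hwu y hy
    have hx0 : s(⟨v, hv⟩, w) ∈ N.edgeSet := hw
    have hvw : v ≠ w.1 := fun h => (N.adj_sub hw).1 (Subtype.ext h)
    rw [Finset.card_eq_one]
    refine ⟨g ⟨s(⟨v, hv⟩, w), hx0⟩, ?_⟩
    ext e
    simp only [Finset.mem_inter, Finset.mem_filter, Finset.mem_univ, true_and, mem_dl,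
      Finset.mem_singleton]
    constructor
    · rintro ⟨⟨x, rfl⟩, hd⟩
      obtain ⟨a, b, hxab, hj⟩ := hg x
      have hab : N.Adj a b := by
        have := x.2
        rw [hxab] at this
        exact this
      have key : (⟨v, hv⟩ : {v // v ∈ T}) = a ∨ (⟨v, hv⟩ : {v // v ∈ T}) = b := by
        by_contra hcon
        push Not at hcon
        have h1 : a.1 ≠ v := fun h => hcon.1 (Subtype.ext h.symm)
        have h2 : b.1 ≠ v := fun h => hcon.2 (Subtype.ext h.symm)
        apply hd
        rcases hj with hj | hj <;> rw [hj] <;> simp [h1, h2]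
      have : x.1 = s(⟨v, hv⟩, w) := by
        rcases key with rfl | rfl
        · rw [hxab, hwu' b hab]
        · rw [hxab, hwu' a hab.symm, Sym2.eq_swap]
      congr 1
      exact Subtype.ext this
    · rintro rfl
      refine ⟨⟨_, rfl⟩, ?_⟩
      obtain ⟨a, b, hxab, hj⟩ := hg ⟨s(⟨v, hv⟩, w), hx0⟩
      simp only [Sym2.eq_iff] at hxab
      rcases hxab with ⟨ha, hb⟩ | ⟨ha, hb⟩ <;> subst ha <;> subst hb <;>
        rcases hj with hj | hj <;> rw [hj] <;> simp [hvw.symm]
  · have := h0 v hv
    unfold d at this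
    rw [Finset.card_eq_zero] at this
    rw [this]
    simp
-- END pm_of_sg

theorem exists_pm (hg : Good f T k) (hk : 1 ≤ k) (hreg : ∀ v ∈ T, d f {v} = k)
    (h0 : ∀ v ∉ T, d f {v} = 0) : ∃ M : Finset E, IsPM f T M := by
  obtain ⟨N, hN⟩ := SimpleGraph.tutte.2 fun u => no_violator hg hk hreg h0 u
  exact pm_of_sg h0 hN

-- BEGIN pm_card
omit [Fintype V] in
private theorem pm_card_cnt (a b : V) (X : Finset V) :
    (X.filter fun v => ¬ (a = v ↔ b = v)).card =
      (if ¬ (a ∈ X ↔ b ∈ X) then 1 else 0) + 2 * (if a ≠ b ∧ a ∈ X ∧ b ∈ X then 1 else 0) := by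
  by_cases hab : a = b
  · subst hab
    simp
  · have h1 : (X.filter fun v => ¬ (a = v ↔ b = v)).card =
        (if a ∈ X then 1 else 0) + (if b ∈ X then 1 else 0) := by
      rw [Finset.card_filter, ← Finset.sum_ite_eq X a (fun _ => 1),
        ← Finset.sum_ite_eq X b (fun _ => 1), ← Finset.sum_add_distrib]
      refine Finset.sum_congr rfl fun v _ => ?_
      by_cases h2 : a = v
      · by_cases h3 : b = v
        · exact absurd (h2.trans h3.symm) hab
        · simp [h2, h3]
      · by_cases h3 : b = v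
        · simp [h2, h3]
        · simp [h2, h3]
    rw [h1]
    by_cases ha : a ∈ X <;> by_cases hb : b ∈ X <;> simp [ha, hb, hab]

omit [Fintype V] in
private theorem pm_card_key {M : Finset E} (hM : IsPM f T M) (X : Finset V) :
    (X ∩ T).card = (M ∩ dl f X).card +
      2 * ∑ e ∈ M, (if (f e).1 ≠ (f e).2 ∧ (f e).1 ∈ X ∧ (f e).2 ∈ X then 1 else 0) := by
  have h1 : (X ∩ T).card = ∑ v ∈ X, (M ∩ dl f {v}).card := by
    rw [← Finset.filter_mem_eq_inter, Finset.card_filter]
    exact Finset.sum_congr rfl fun v _ => (hM v).symm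
  have h2 : ∑ v ∈ X, (M ∩ dl f {v}).card =
      ∑ e ∈ M, (X.filter fun v => ¬ ((f e).1 = v ↔ (f e).2 = v)).card := by
    have e1 : ∀ v ∈ X, (M ∩ dl f {v}).card =
        ∑ e ∈ M, if ¬ ((f e).1 = v ↔ (f e).2 = v) then 1 else 0 := by
      intro v _
      rw [← Finset.filter_mem_eq_inter, Finset.card_filter]
      refine Finset.sum_congr rfl fun e _ => ?_
      simp only [mem_dl, Finset.mem_singleton]
    rw [Finset.sum_congr rfl e1, Finset.sum_comm]
    exact Finset.sum_congr rfl fun e _ => (Finset.card_filter _ _).symm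
  have h3 : (M ∩ dl f X).card = ∑ e ∈ M, if ¬ ((f e).1 ∈ X ↔ (f e).2 ∈ X) then 1 else 0 := by
    rw [← Finset.filter_mem_eq_inter, Finset.card_filter]
    refine Finset.sum_congr rfl fun e _ => ?_
    simp only [mem_dl]
  rw [h1, h2, h3, Finset.mul_sum, ← Finset.sum_add_distrib]
  exact Finset.sum_congr rfl fun e _ => pm_card_cnt _ _ _

omit [Fintype V] in
theorem pm_par {M : Finset E} (hM : IsPM f T M) (X : Finset V) :
    (M ∩ dl f X).card % 2 = (X ∩ T).card % 2 := by
  have := pm_card_key hM X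
  omega

omit [Fintype V] in
theorem pm_le {M : Finset E} (hM : IsPM f T M) (X : Finset V) :
    (M ∩ dl f X).card ≤ (X ∩ T).card := by
  have := pm_card_key hM X
  omega
-- END pm_card

-- BEGIN del
omit [Fintype V] in
theorem dl_del (f : E → V × V) (M : Finset E) (X : Finset V) : dl (del f M) X = dl f X \ M := by
  ext e
  rw [Finset.mem_sdiff, mem_dl, mem_dl, del]
  by_cases h : e ∈ M <;> simp [h]

omit [Fintype V] in
theorem d_del (f : E → V × V) (M : Finset E) (X : Finset V) :
    d (del f M) X + (M ∩ dl f X).card = d f X := by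
  rw [d, d, dl_del, Finset.inter_comm]
  exact Finset.card_sdiff_add_card_inter _ _

omit [Fintype V] in
theorem Good_del {M : Finset E} (hg : Good f T k) (hM : IsPM f T M) (hk : k' % 2 = (k + 1) % 2)
    (h : ∀ X : Finset V, Odd (X ∩ T).card → k' ≤ d (del f M) X) : Good (del f M) T k' := by
  refine ⟨hg.even, fun X => ?_, h⟩
  have h1 := hg.par X
  have h2 := pm_par hM X
  have h3 := d_del f M X
  rw [Nat.mul_mod, hk, ← Nat.mul_mod, add_mul, one_mul]
  omega
-- END del

-- BEGIN TCol_del
omit [Fintype V] in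
/-- `M` becomes the last class -/
theorem TCol_del {M : Finset E} (hM : IsPM f T M) {c : E → Fin m} (hc : TCol (del f M) T m c) :
    ∃ c' : E → Fin (m + 1), TCol f T (m + 1) c' := by
  refine ⟨fun e => if e ∈ M then Fin.last m else (c e).castSucc, fun i v => ?_⟩
  refine Fin.lastCases ?_ (fun j => ?_) i
  · have h1 : ((dl f {v}).filter fun e =>
        (if e ∈ M then Fin.last m else (c e).castSucc) = Fin.last m) = M ∩ dl f {v} := by
      ext e
      rw [Finset.mem_filter, Finset.mem_inter]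
      by_cases he : e ∈ M
      · rw [if_pos he]
        exact ⟨fun h => ⟨he, h.1⟩, fun h => ⟨h.2, rfl⟩⟩
      · rw [if_neg he]
        exact ⟨fun h => absurd h.2 (Fin.castSucc_lt_last (c e)).ne, fun h => absurd h.1 he⟩
    rw [h1, hM v]
    by_cases hv : v ∈ T
    · rw [if_pos hv]
      exact ⟨fun _ => hv, fun _ => odd_one⟩
    · rw [if_neg hv]
      exact ⟨fun h => absurd h (by decide), fun h => absurd h hv⟩
  · have h1 : ((dl f {v}).filter fun e =>
        (if e ∈ M then Fin.last m else (c e).castSucc) = j.castSucc) =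
          (dl (del f M) {v}).filter fun e => c e = j := by
      ext e
      rw [Finset.mem_filter, Finset.mem_filter, dl_del, Finset.mem_sdiff]
      by_cases he : e ∈ M
      · rw [if_pos he]
        exact ⟨fun h => absurd h.2 (Fin.castSucc_lt_last j).ne', fun h => absurd he h.1.2⟩
      · rw [if_neg he]
        exact ⟨fun h => ⟨⟨h.1, he⟩, Fin.castSucc_injective m h.2⟩,
          fun h => ⟨h.1.1, congrArg Fin.castSucc h.2⟩⟩
    rw [h1]
    exact hc j v
-- END TCol_del

end Pool.Agent.Pmj
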