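import Pool.Agent.Pmj.Split
import Pool.Agent.Pmj.Glue
import Pool.Agent.Pmj.Pm
import Pool.Agent.Pmj.Log

set_option autoImplicit false

/-!
# The main induction
-/

namespace Pool.Agent.Pmj

variable {V E : Type} [Fintype V] [DecidableEq V] [Fintype E] [DecidableEq E]

theorem h_add' {a b n i : ℕ} (ha : 4 + 2 * i ≤ a) (hb : 4 + 2 * i ≤ b) (hn : a + b = n + 2) :
    h a + h b + (2 + 2 * i) ≤ h n := by
  rcases le_total a b with hab | hab
  · have h1 := h_add (by omega) hab hn
    have h2 : ((4 + 2 * i : ℕ) : ℝ) ≤ a := by exact_mod_cast ha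
    push_cast at h2
    linarith
  · have h1 := h_add (a := b) (b := a) (n := n) (by omega) hab (by omega)
    have h2 : ((4 + 2 * i : ℕ) : ℝ) ≤ b := by exact_mod_cast hb
    push_cast at h2
    linarith

/-- the gluing step -/
theorem glue_step {f : E → V × V} {T X : Finset V} {k m : ℕ} {x0 x1 : V} (hg : Good f T k)
    (hX : Odd (X ∩ T).card) (hX' : Odd (Xᶜ ∩ T).card) (h0 : x0 ∉ X) (h1 : x1 ∈ X) (hd : d f X = k)
    (hm : 1 ≤ m) (hmk : m % 2 = k % 2)
    (hlt : (m : ℝ) + h ((X ∩ T).card + 1) + h ((Xᶜ ∩ T).card + 1) + 2 < k)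
    (hA : ∀ m1 : ℕ, 1 ≤ m1 → m1 % 2 = k % 2 → (m1 : ℝ) + h ((X ∩ T).card + 1) < k →
      ∃ cA : E → Fin m1, TCol (con f X x0) (insert x0 (X ∩ T)) m1 cA)
    (hB : ∀ m2 : ℕ, 1 ≤ m2 → m2 % 2 = k % 2 → (m2 : ℝ) + h ((Xᶜ ∩ T).card + 1) < k →
      ∃ cB : E → Fin m2, TCol (con f Xᶜ x1) (insert x1 (Xᶜ ∩ T)) m2 cB) :
    ∃ c : E → Fin m, TCol f T m c := by
  have e1 : Even ((X ∩ T).card + 1) := hX.add_one
  have e2 : Even ((Xᶜ ∩ T).card + 1) := hX'.add_one
  have p1 : 1 ≤ (X ∩ T).card := hX.pos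
  have p2 : 1 ≤ (Xᶜ ∩ T).card := hX'.pos
  obtain ⟨l, hl, hl1, hl2⟩ := exists_ell e1 (by omega)
  have hlow := h_lower e2 (by omega)
  have hm2 : ((m + l : ℕ) : ℝ) + h ((Xᶜ ∩ T).card + 1) < k := by
    push_cast
    linarith
  have hle : m + l ≤ k := by
    have h3 : ((m + l : ℕ) : ℝ) < ((k + 2 : ℕ) : ℝ) := by
      push_cast at hm2 ⊢
      linarith
    have h4 : m + l < k + 2 := by exact_mod_cast h3
    obtain ⟨r, hr⟩ := hl
    omega
  have hl' : l % 2 = 0 := Nat.even_iff.1 hl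
  obtain ⟨cA, hcA⟩ := hA (k - l) (by omega) (by omega) (by
    rw [Nat.cast_sub (by omega)]
    linarith)
  obtain ⟨cB, hcB⟩ := hB (m + l) (by omega) (by omega) hm2
  exact glue hg.even hX h0 h1 hcA hcB (by rw [hd]; omega) hm

theorem main : ∀ (k N : ℕ) (f : E → V × V) (T : Finset V), Good f T k → nl f + T.card ≤ N →
    ∀ m : ℕ, 1 ≤ m → m % 2 = k % 2 → (T.Nonempty → (m : ℝ) + h T.card < k) →
      ∃ c : E → Fin m, TCol f T m c := by
  intro k
  induction k using Nat.strong_induction_on with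
  | _ k ihk =>
  intro N
  induction N using Nat.strong_induction_on with
  | _ N ihN =>
  intro f T hg hN m hm hmk hlt
  rcases T.eq_empty_or_nonempty with hT | hT
  · subst hT
    refine ⟨fun _ => ⟨0, hm⟩, fun i v => ?_⟩
    have h1 := hg.par {v}
    simp only [Finset.inter_empty, Finset.card_empty, mul_zero, Nat.zero_mod] at h1
    simp only [Finset.notMem_empty, iff_false, Nat.not_odd_iff_even]
    by_cases hi : (⟨0, hm⟩ : Fin m) = i
    · simp only [hi, Finset.filter_true]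
      exact Nat.even_iff.2 h1
    · simp [hi]
  have hlt := hlt hT
  have hT2 : 2 ≤ T.card := by
    have h1 := hT.card_pos
    obtain ⟨r, hr⟩ := hg.even
    omega
  have hlow := h_lower hg.even hT2
  have hsing : ∀ v ∈ T, ({v} ∩ T : Finset V) = {v} := by
    intro v hv
    exact Finset.inter_eq_left.2 (Finset.singleton_subset_iff.2 hv)
  by_cases hm1 : m = 1
  · subst hm1
    refine ⟨fun _ => 0, fun i v => ?_⟩
    have h1 := hg.par {v}
    have h2 : (0 : Fin 1) = i := Subsingleton.elim _ _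
    simp only [h2, Finset.filter_true]
    rw [Nat.odd_iff, show (dl f {v}).card = d f {v} from rfl, h1, Nat.mul_mod, ← hmk]
    by_cases hv : v ∈ T
    · rw [hsing v hv]
      simp [hv]
    · rw [Finset.singleton_inter_of_notMem hv]
      simp [hv]
  have hm2 : 2 ≤ m := by omega
  have hmle : m ≤ k := by
    have h3 : (m : ℝ) < ((k + 2 : ℕ) : ℝ) := by
      push_cast
      linarith
    have h4 : m < k + 2 := by exact_mod_cast h3
    omega
  by_cases hs : ∃ s, s ∉ T ∧ 0 < d f {s} ∨ s ∈ T ∧ k < d f {s}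
  · obtain ⟨s, hs⟩ := hs
    obtain ⟨f', hg', hnl, hc⟩ := split_step hg hs
    obtain ⟨c', hc'⟩ := ihN (nl f' + T.card) (by omega) f' T hg' le_rfl m hm hmk fun _ => hlt
    exact hc m c' hc'
  push Not at hs
  have h0 : ∀ v ∉ T, d f {v} = 0 := fun v hv => by
    have := (hs v).1 hv
    omega
  have hreg : ∀ v ∈ T, d f {v} = k := fun v hv => by
    have h1 := (hs v).2 hv
    have h2 := hg.cut {v} (by rw [hsing v hv]; simp)
    omega
  by_cases ht : ∃ X : Finset V, Odd (X ∩ T).card ∧ 3 ≤ (X ∩ T).card ∧ 3 ≤ (Xᶜ ∩ T).card ∧ d f X = k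
  · obtain ⟨X, hX, h3, h3', hd⟩ := ht
    have hX' : Odd (Xᶜ ∩ T).card := (odd_compl hg.even X).2 hX
    obtain ⟨x1, hx1⟩ : (X ∩ T).Nonempty := Finset.card_pos.1 (by omega)
    obtain ⟨x0, hx0⟩ : (Xᶜ ∩ T).Nonempty := Finset.card_pos.1 (by omega)
    rw [Finset.mem_inter] at hx1 hx0
    have hx0' : x0 ∉ X := Finset.mem_compl.1 hx0.1
    have hx1' : x1 ∉ Xᶜ := fun h => Finset.mem_compl.1 h hx1.1
    have hsum : (X ∩ T).card + (Xᶜ ∩ T).card = T.card := by
      rw [← Finset.card_union_of_disjoint, ← Finset.union_inter_distrib_right,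
        Finset.union_compl, Finset.univ_inter]
      exact Finset.disjoint_of_subset_left Finset.inter_subset_left
        (Finset.disjoint_of_subset_right Finset.inter_subset_left disjoint_compl_right)
    have hcA : (insert x0 (X ∩ T)).card = (X ∩ T).card + 1 :=
      Finset.card_insert_of_notMem fun h => hx0' (Finset.mem_inter.1 h).1
    have hcB : (insert x1 (Xᶜ ∩ T)).card = (Xᶜ ∩ T).card + 1 :=
      Finset.card_insert_of_notMem fun h => hx1' (Finset.mem_inter.1 h).1
    have hadd := h_add' (a := (X ∩ T).card + 1) (b := (Xᶜ ∩ T).card + 1) (n := T.card) (i := 0)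
      (by omega) (by omega) (by omega)
    push_cast at hadd
    have hnA := nl_con f X x0
    have hnB := nl_con f Xᶜ x1
    refine glue_step hg hX hX' hx0' hx1.1 hd hm hmk (by linarith) ?_ ?_
    · intro m1 hm1 hm1k hm1lt
      exact ihN (nl (con f X x0) + (insert x0 (X ∩ T)).card) (by omega) _ _
        (Good_con hg hx0' hX) le_rfl m1 hm1 hm1k fun _ => by rw [hcA]; exact hm1lt
    · intro m2 hm2 hm2k hm2lt
      exact ihN (nl (con f Xᶜ x1) + (insert x1 (Xᶜ ∩ T)).card) (by omega) _ _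
        (Good_con hg hx1' hX') le_rfl m2 hm2 hm2k fun _ => by rw [hcB]; exact hm2lt
  push Not at ht
  obtain ⟨M, hM⟩ := exists_pm hg (by omega) hreg h0
  obtain ⟨v0, hv0⟩ := hT
  obtain ⟨X, hX, hmin⟩ := Finset.exists_min_image
    (Finset.univ.filter fun X : Finset V => Odd (X ∩ T).card) (fun X => d (del f M) X)
    ⟨{v0}, by simp [hsing v0 hv0]⟩
  simp only [Finset.mem_filter, Finset.mem_univ, true_and] at hX hmin
  obtain ⟨k', hk'⟩ : ∃ k', d (del f M) X = k' := ⟨_, rfl⟩
  have hdel := d_del f M X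
  have hpar : k' % 2 = (k + 1) % 2 := by
    have h1 := hg.par X
    have h2 := pm_par hM X
    rw [Nat.mul_mod] at h1
    rw [Nat.odd_iff] at hX
    rw [hX] at h1 h2
    omega
  by_cases hbig : k - 1 ≤ k'
  · obtain ⟨c', hc'⟩ := ihk (k - 1) (by omega) _ (del f M) T
      (Good_del hg hM (by omega) fun Y hY => by
        have := hmin Y hY
        omega) le_rfl (m - 1) (by omega) (by omega) (fun _ => by
        rw [Nat.cast_sub (by omega), Nat.cast_sub (by omega)]
        push_cast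
        linarith)
    obtain ⟨c, hc⟩ := TCol_del hM hc'
    obtain ⟨m', rfl⟩ : ∃ m', m = m' + 1 := ⟨m - 1, by omega⟩
    exact ⟨c, hc⟩
  · obtain ⟨i, hi⟩ : ∃ i, k = k' + 1 + 2 * i := ⟨(k - 1 - k') / 2, by omega⟩
    have hi1 : 1 ≤ i := by omega
    have hX' : Odd (Xᶜ ∩ T).card := (odd_compl hg.even X).2 hX
    have hle1 := pm_le hM X
    have hle2 := pm_le hM Xᶜ
    rw [dl_compl] at hle2
    have hdk := hg.cut X hX
    have h3 : 3 ≤ (X ∩ T).card := by
      by_contra hlt3
      have : (X ∩ T).card = 1 := by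
        obtain ⟨r, hr⟩ := hX
        omega
      omega
    have h3' : 3 ≤ (Xᶜ ∩ T).card := by
      by_contra hlt3
      have : (Xᶜ ∩ T).card = 1 := by
        obtain ⟨r, hr⟩ := hX'
        omega
      omega
    have hne := ht X hX h3 h3'
    have hd2 : k + 2 ≤ d f X := by
      have h1 := hg.par X
      rw [Nat.mul_mod, Nat.odd_iff.1 hX] at h1
      omega
    have hn1 : 4 + 2 * i ≤ (X ∩ T).card + 1 := by omega
    have hn2 : 4 + 2 * i ≤ (Xᶜ ∩ T).card + 1 := by omega
    obtain ⟨x1, hx1⟩ : (X ∩ T).Nonempty := Finset.card_pos.1 (by omega)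
    obtain ⟨x0, hx0⟩ : (Xᶜ ∩ T).Nonempty := Finset.card_pos.1 (by omega)
    rw [Finset.mem_inter] at hx1 hx0
    have hx0' : x0 ∉ X := Finset.mem_compl.1 hx0.1
    have hx1' : x1 ∉ Xᶜ := fun h => Finset.mem_compl.1 h hx1.1
    have hsum : (X ∩ T).card + (Xᶜ ∩ T).card = T.card := by
      rw [← Finset.card_union_of_disjoint, ← Finset.union_inter_distrib_right,
        Finset.union_compl, Finset.univ_inter]
      exact Finset.disjoint_of_subset_left Finset.inter_subset_left
        (Finset.disjoint_of_subset_right Finset.inter_subset_left disjoint_compl_right)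
    have hcA : (insert x0 (X ∩ T)).card = (X ∩ T).card + 1 :=
      Finset.card_insert_of_notMem fun h => hx0' (Finset.mem_inter.1 h).1
    have hcB : (insert x1 (Xᶜ ∩ T)).card = (Xᶜ ∩ T).card + 1 :=
      Finset.card_insert_of_notMem fun h => hx1' (Finset.mem_inter.1 h).1
    have hadd := h_add' (a := (X ∩ T).card + 1) (b := (Xᶜ ∩ T).card + 1) (n := T.card) (i := i)
      hn1 hn2 (by omega)
    have hg' : Good (del f M) T k' := Good_del hg hM hpar fun Y hY => by
      have := hmin Y hY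
      omega
    have hkr : (k : ℝ) = k' + 1 + 2 * i := by
      rw [hi]
      push_cast
      ring
    obtain ⟨c', hc'⟩ := glue_step (m := m - 1) hg' hX hX' hx0' hx1.1 hk' (by omega) (by omega) (by
        rw [Nat.cast_sub (by omega)]
        push_cast at hadd ⊢
        linarith) (fun m1 hm1 hm1k hm1lt => ihk k' (by omega) _ _ _ (Good_con hg' hx0' hX) le_rfl
          m1 hm1 hm1k fun _ => by rw [hcA]; exact hm1lt)
      (fun m2 hm2 hm2k hm2lt => ihk k' (by omega) _ _ _ (Good_con hg' hx1' hX') le_rfl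
          m2 hm2 hm2k fun _ => by rw [hcB]; exact hm2lt)
    obtain ⟨c, hc⟩ := TCol_del hM hc'
    obtain ⟨m', rfl⟩ : ∃ m', m = m' + 1 := ⟨m - 1, by omega⟩
    exact ⟨c, hc⟩

end Pool.Agent.Pmj
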