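import Pool.Agent.Pmj.Cut

set_option autoImplicit false

/-!
# Splitting two edges at a vertex
-/

namespace Pool.Agent.Pmj

variable {V E : Type} [Fintype V] [DecidableEq V] [Fintype E] [DecidableEq E]
  {f : E → V × V} {T X Y : Finset V} {k m : ℕ} {e1 e2 : E} {s u v : V}

-- BEGIN d_spl
omit [Fintype V] in
theorem d_spl (h1 : Jn f e1 s u) (h2 : Jn f e2 s v) (hne : e1 ≠ e2) (X : Finset V) :
    d (spl f e1 e2 s u v) X +
      (if (s ∈ X ∧ u ∉ X ∧ v ∉ X) ∨ (s ∉ X ∧ u ∈ X ∧ v ∈ X) then 2 else 0) = d f X := by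
  have key : ∀ g : E → V × V, d g X = (if ¬ ((g e1).1 ∈ X ↔ (g e1).2 ∈ X) then 1 else 0) +
      (if ¬ ((g e2).1 ∈ X ↔ (g e2).2 ∈ X) then 1 else 0) +
      ((Finset.univ.erase e1).erase e2 |>.filter fun e => ¬ ((g e).1 ∈ X ↔ (g e).2 ∈ X)).card := by
    intro g
    unfold d dl
    rw [Finset.card_filter, Finset.card_filter,
      ← Finset.add_sum_erase Finset.univ _ (Finset.mem_univ e1),
      ← Finset.add_sum_erase (Finset.univ.erase e1) _
        (Finset.mem_erase.2 ⟨hne.symm, Finset.mem_univ e2⟩)]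
    ring
  rw [key f, key (spl f e1 e2 s u v)]
  have hrest : ((Finset.univ.erase e1).erase e2 |>.filter fun e =>
      ¬ ((spl f e1 e2 s u v e).1 ∈ X ↔ (spl f e1 e2 s u v e).2 ∈ X)) =
      ((Finset.univ.erase e1).erase e2 |>.filter fun e => ¬ ((f e).1 ∈ X ↔ (f e).2 ∈ X)) := by
    apply Finset.filter_congr
    intro e he
    simp only [Finset.mem_erase, Finset.mem_univ, and_true] at he
    unfold spl
    rw [if_neg he.2, if_neg he.1]
  have s1 : spl f e1 e2 s u v e1 = (u, v) := by
    unfold spl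
    rw [if_pos rfl]
  have s2 : spl f e1 e2 s u v e2 = (s, s) := by
    unfold spl
    rw [if_neg hne.symm, if_pos rfl]
  rw [hrest, s1, s2]
  have f1 : (¬ ((f e1).1 ∈ X ↔ (f e1).2 ∈ X)) ↔ ¬ (s ∈ X ↔ u ∈ X) := by
    rcases h1 with h | h <;> rw [h]
    exact not_congr Iff.comm
  have f2 : (¬ ((f e2).1 ∈ X ↔ (f e2).2 ∈ X)) ↔ ¬ (s ∈ X ↔ v ∈ X) := by
    rcases h2 with h | h <;> rw [h]
    exact not_congr Iff.comm
  rw [if_congr f1 rfl rfl, if_congr f2 rfl rfl]
  by_cases hs : s ∈ X <;> by_cases hu : u ∈ X <;> by_cases hv : v ∈ X <;> simp [hs, hu, hv] <;> ring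
-- END d_spl

-- BEGIN nl_spl
omit [Fintype V] in
theorem nl_spl (h1 : Jn f e1 s u) (h2 : Jn f e2 s v) (hne : e1 ≠ e2) (hu : u ≠ s) (hv : v ≠ s) :
    nl (spl f e1 e2 s u v) < nl f := by
  unfold nl
  apply Finset.card_lt_card
  rw [Finset.ssubset_iff_of_subset]
  · refine ⟨e2, ?_, ?_⟩
    · simp only [Finset.mem_filter, Finset.mem_univ, true_and]
      rcases h2 with h2 | h2
      · rw [h2]
        exact hv.symm
      · rw [h2]
        exact hv
    · simp [spl, hne.symm]
  · intro e he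
    simp only [Finset.mem_filter, Finset.mem_univ, true_and] at he ⊢
    by_cases he1 : e = e1
    · subst he1
      rcases h1 with h1 | h1
      · rw [h1]
        exact hu.symm
      · rw [h1]
        exact hu
    · by_cases he2 : e = e2
      · subst he2
        simp [spl, he1] at he
      · simpa [spl, he1, he2] using he
-- END nl_spl

-- BEGIN exists_pair
omit [Fintype V] [DecidableEq E] in
private theorem exists_pair_jn {e : E} (he : e ∈ dl f {s}) : ∃ u, u ≠ s ∧ Jn f e s u := by
  rw [mem_dl, Finset.mem_singleton, Finset.mem_singleton] at he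
  by_cases h1 : (f e).1 = s
  · refine ⟨(f e).2, fun h2 => he ⟨fun _ => h2, fun _ => h1⟩, Or.inl ?_⟩
    exact Prod.ext h1 rfl
  · refine ⟨(f e).1, h1, Or.inr ?_⟩
    have h2 : (f e).2 = s := by
      by_contra h2
      exact he ⟨fun h => absurd h h1, fun h => absurd h h2⟩
    exact Prod.ext rfl h2

omit [Fintype V] [DecidableEq E] in
private theorem exists_pair_mem {e : E} (he : Jn f e s u) (hs : s ∉ X) : e ∈ dl f X ↔ u ∈ X := by
  rw [mem_dl]
  rcases he with he | he
  · rw [he]
    simp [hs]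
  · rw [he]
    simp [hs]

omit [Fintype V] [DecidableEq E] in
private theorem exists_pair_self {e : E} (he : Jn f e s u) (hu : u ≠ s) : e ∈ dl f {s} := by
  rw [mem_dl]
  rcases he with he | he
  · rw [he]
    simp [hu]
  · rw [he]
    simp [hu]

/-- There are two edges at `s` that can be split. Proof: otherwise for any two edges `su`, `sv` there is
`X` with `|X ∩ T|` odd, `s ∉ X`, `u, v ∈ X`, `d X = k` (parity). Take such an `X` with the number of
edges from `s` to `X` maximal. Some edge `sz` has `z ∉ X` (otherwise `k = d X ≥ d {s} > k` if `s ∈ T`,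
and `k ≤ d (X ∪ {s}) = k - d {s}` if `s ∉ T`). Take an edge `su` with `u ∈ X` and `Y` for the pair
`su`, `sz`. If `|X ∩ Y ∩ T|` is odd, `submod` gives `d (X ∪ Y) = k`, a contradiction to the choice of
`X`; otherwise `posimod` with the edge `su` gives `2 k + 2 ≤ 2 k`. -/
theorem exists_pair (hg : Good f T k) (hs : s ∉ T ∧ 0 < d f {s} ∨ s ∈ T ∧ k < d f {s}) :
    ∃ (e1 e2 : E) (u v : V), e1 ≠ e2 ∧ Jn f e1 s u ∧ Jn f e2 s v ∧ u ≠ s ∧ v ≠ s ∧
      ∀ X : Finset V, Odd (X ∩ T).card → s ∉ X → u ∈ X → v ∈ X → k + 2 ≤ d f X := by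
  classical
  by_contra hcon
  -- the sets for the pairs
  have hset : ∀ (e1 e2 : E) (u v : V), e1 ≠ e2 → Jn f e1 s u → Jn f e2 s v → u ≠ s → v ≠ s →
      ∃ X : Finset V, Odd (X ∩ T).card ∧ s ∉ X ∧ u ∈ X ∧ v ∈ X ∧ d f X = k := by
    intro e1 e2 u v hne h1 h2 hu hv
    by_contra hno
    apply hcon
    refine ⟨e1, e2, u, v, hne, h1, h2, hu, hv, ?_⟩
    intro X hX hsX huX hvX
    have hc := hg.cut X hX
    have hp := hg.par X
    have hodd : k * (X ∩ T).card % 2 = k % 2 := by
      rw [Nat.mul_mod, Nat.odd_iff.1 hX]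
      omega
    rw [hodd] at hp
    have hne' : d f X ≠ k := fun h => hno ⟨X, hX, hsX, huX, hvX, h⟩
    omega
  -- two edges at s
  have hd2 : 1 < (dl f {s}).card := by
    have hp := hg.par {s}
    rcases hs with ⟨hsT, hs⟩ | ⟨hsT, hs⟩
    · have h0 : ({s} : Finset V) ∩ T = ∅ := Finset.singleton_inter_of_notMem hsT
      rw [h0, Finset.card_empty] at hp
      unfold d at hp hs
      omega
    · have h0 : ({s} : Finset V) ∩ T = {s} := Finset.singleton_inter_of_mem hsT
      rw [h0, Finset.card_singleton] at hp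
      unfold d at hp hs
      omega
  obtain ⟨a1, ha1, a2, ha2, ha12⟩ := Finset.one_lt_card.1 hd2
  obtain ⟨u0, hu0, hj0⟩ := exists_pair_jn ha1
  obtain ⟨v0, hv0, hk0⟩ := exists_pair_jn ha2
  obtain ⟨X0, hX01, hX02, hX03, hX04, hX05⟩ := hset a1 a2 u0 v0 ha12 hj0 hk0 hu0 hv0
  -- the maximal set
  have hne : (Finset.univ.filter fun X : Finset V => Odd (X ∩ T).card ∧ s ∉ X ∧ d f X = k).Nonempty :=
    ⟨X0, by simp only [Finset.mem_filter, Finset.mem_univ, true_and]; exact ⟨hX01, hX02, hX05⟩⟩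
  obtain ⟨X, hX, hmax⟩ := Finset.exists_max_image _ (fun X => (dl f {s} ∩ dl f X).card) hne
  simp only [Finset.mem_filter, Finset.mem_univ, true_and] at hX hmax
  obtain ⟨hX1, hX2, hX3⟩ := hX
  have hpos : 0 < (dl f {s} ∩ dl f X).card := by
    refine lt_of_lt_of_le ?_ (hmax X0 ⟨hX01, hX02, hX05⟩)
    rw [Finset.card_pos]
    exact ⟨a1, Finset.mem_inter.2 ⟨ha1, (exists_pair_mem hj0 hX02).2 hX03⟩⟩
  obtain ⟨e4, he4⟩ := Finset.card_pos.1 hpos
  rw [Finset.mem_inter] at he4
  obtain ⟨u, hu, hju⟩ := exists_pair_jn he4.1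
  have huX : u ∈ X := (exists_pair_mem hju hX2).1 he4.2
  -- an edge which leaves s and does not go to X
  have hz : ∃ e3 ∈ dl f {s}, e3 ∉ dl f X := by
    by_contra hno
    push Not at hno
    have hsub : dl f {s} ⊆ dl f X := fun e he => hno e he
    rcases hs with ⟨hsT, hs⟩ | ⟨hsT, hs⟩
    · have h1 : (insert s X ∩ T).card = (X ∩ T).card := by
        rw [Finset.insert_inter_of_notMem hsT]
      have h2 : k ≤ d f (insert s X) := hg.cut _ (by rw [h1]; exact hX1)
      have h3 : dl f (insert s X) ⊆ dl f X \ dl f {s} := by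
        intro e he
        rw [Finset.mem_sdiff]
        have hne1 : e ∉ dl f {s} := by
          intro h4
          obtain ⟨b, hb, hjb⟩ := exists_pair_jn h4
          have h5 : b ∈ X := (exists_pair_mem hjb hX2).1 (hsub h4)
          rw [mem_dl] at he
          apply he
          rcases hjb with hjb | hjb
          · rw [hjb]
            simp [h5]
          · rw [hjb]
            simp [h5]
        refine ⟨?_, hne1⟩
        rw [mem_dl] at he hne1 ⊢
        simp only [Finset.mem_insert, Finset.mem_singleton] at he hne1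
        by_cases b1 : (f e).1 = s <;> by_cases b2 : (f e).2 = s <;> simp [b1, b2] at he hne1 ⊢
        exact he
      have h4 := Finset.card_le_card h3
      rw [Finset.card_sdiff_of_subset hsub] at h4
      have h5 := Finset.card_le_card hsub
      unfold d at h2 hX3 hs
      omega
    · have h5 := Finset.card_le_card hsub
      unfold d at hX3 hs
      omega
  obtain ⟨e3, he3, he3X⟩ := hz
  obtain ⟨z, hz, hjz⟩ := exists_pair_jn he3
  have hzX : z ∉ X := fun h => he3X ((exists_pair_mem hjz hX2).2 h)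
  have h34 : e4 ≠ e3 := fun h => he3X (h ▸ he4.2)
  obtain ⟨Y, hY1, hY2, hY3, hY4, hY5⟩ := hset e4 e3 u z h34 hju hjz hu hz
  have hsXY : s ∉ X ∪ Y := by
    rw [Finset.mem_union, not_or]
    exact ⟨hX2, hY2⟩
  -- parities
  have hun : ((X ∪ Y) ∩ T).card + (X ∩ Y ∩ T).card = (X ∩ T).card + (Y ∩ T).card := by
    have e1 : (X ∪ Y) ∩ T = (X ∩ T) ∪ (Y ∩ T) := Finset.union_inter_distrib_right X Y T
    have e2 : X ∩ Y ∩ T = (X ∩ T) ∩ (Y ∩ T) := by
      ext x
      simp only [Finset.mem_inter]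
      tauto
    rw [e1, e2, Finset.card_union_add_card_inter]
  have hXs : (X \ Y ∩ T).card + (X ∩ Y ∩ T).card = (X ∩ T).card := by
    rw [← Finset.card_union_of_disjoint]
    · congr 1
      ext x
      simp only [Finset.mem_inter, Finset.mem_union, Finset.mem_sdiff]
      tauto
    · rw [Finset.disjoint_left]
      intro x hx hx'
      simp only [Finset.mem_inter, Finset.mem_sdiff] at hx hx'
      exact hx.1.2 hx'.1.2
  have hYs : (Y \ X ∩ T).card + (X ∩ Y ∩ T).card = (Y ∩ T).card := by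
    rw [← Finset.card_union_of_disjoint]
    · congr 1
      ext x
      simp only [Finset.mem_inter, Finset.mem_union, Finset.mem_sdiff]
      tauto
    · rw [Finset.disjoint_left]
      intro x hx hx'
      simp only [Finset.mem_inter, Finset.mem_sdiff] at hx hx'
      exact hx.1.2 hx'.1.1
  rcases Nat.even_or_odd (X ∩ Y ∩ T).card with hp | hp
  · -- even
    have o1 : Odd (X \ Y ∩ T).card := by
      rw [Nat.odd_iff] at hX1 ⊢
      rw [Nat.even_iff] at hp
      omega
    have o2 : Odd (Y \ X ∩ T).card := by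
      rw [Nat.odd_iff] at hY1 ⊢
      rw [Nat.even_iff] at hp
      omega
    have c1 := hg.cut _ o1
    have c2 := hg.cut _ o2
    have hpm := posimod f X Y (e := e4) (by
      rcases hju with hju | hju
      · right
        rw [hju]
        exact ⟨Finset.mem_inter.2 ⟨huX, hY3⟩, hsXY⟩
      · left
        rw [hju]
        exact ⟨Finset.mem_inter.2 ⟨huX, hY3⟩, hsXY⟩)
    omega
  · -- odd
    have o1 : Odd ((X ∪ Y) ∩ T).card := by
      rw [Nat.odd_iff] at hX1 hY1 hp ⊢
      omega
    have c1 := hg.cut _ o1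
    have c2 := hg.cut _ hp
    have hsm := submod f X Y
    have hk : d f (X ∪ Y) = k := by omega
    have hm := hmax (X ∪ Y) ⟨o1, hsXY, hk⟩
    have hlt : (dl f {s} ∩ dl f X).card < (dl f {s} ∩ dl f (X ∪ Y)).card := by
      apply Finset.card_lt_card
      rw [Finset.ssubset_iff_of_subset]
      · refine ⟨e3, Finset.mem_inter.2 ⟨he3, (exists_pair_mem hjz hsXY).2
          (Finset.mem_union_right _ hY4)⟩, fun h => he3X (Finset.mem_inter.1 h).2⟩
      · intro e he
        rw [Finset.mem_inter] at he ⊢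
        refine ⟨he.1, ?_⟩
        obtain ⟨b, hb, hjb⟩ := exists_pair_jn he.1
        exact (exists_pair_mem hjb hsXY).2
          (Finset.mem_union_left _ ((exists_pair_mem hjb hX2).1 he.2))
    omega
-- END exists_pair

-- BEGIN Good_spl
/-- use `d_spl`, and `d_compl`, `odd_compl` for `X` with `s ∈ X` -/
theorem Good_spl (hg : Good f T k) (h1 : Jn f e1 s u) (h2 : Jn f e2 s v) (hne : e1 ≠ e2)
    (hX : ∀ X : Finset V, Odd (X ∩ T).card → s ∉ X → u ∈ X → v ∈ X → k + 2 ≤ d f X) :
    Good (spl f e1 e2 s u v) T k := by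
  refine ⟨hg.even, fun X => ?_, fun X hodd => ?_⟩
  · have h := d_spl h1 h2 hne X
    have hp := hg.par X
    split_ifs at h <;> omega
  · have h := d_spl h1 h2 hne X
    have hc := hg.cut X hodd
    by_cases hcase : (s ∈ X ∧ u ∉ X ∧ v ∉ X) ∨ (s ∉ X ∧ u ∈ X ∧ v ∈ X)
    · rw [if_pos hcase] at h
      rcases hcase with ⟨hs, hu, hv⟩ | ⟨hs, hu, hv⟩
      · have h3 := hX Xᶜ ((odd_compl hg.even X).2 hodd) (by simpa using hs) (by simpa using hu)
          (by simpa using hv)
        rw [d_compl] at h3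
        omega
      · have h3 := hX X hodd hs hu hv
        omega
    · rw [if_neg hcase] at h
      omega
-- END Good_spl

-- BEGIN TCol_spl
omit [Fintype V] [DecidableEq V] in
private theorem TCol_spl_sum (p : E → Prop) [DecidablePred p] {e1 e2 : E} (hne : e1 ≠ e2) :
    (Finset.univ.filter p).card = (if p e1 then 1 else 0) + ((if p e2 then 1 else 0) +
      (((Finset.univ.erase e1).erase e2).filter p).card) := by
  rw [Finset.card_filter, Finset.card_filter,
    ← Finset.add_sum_erase Finset.univ (fun e => if p e then 1 else 0) (Finset.mem_univ e1),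
    ← Finset.add_sum_erase (Finset.univ.erase e1) (fun e => if p e then 1 else 0)
      (Finset.mem_erase.mpr ⟨hne.symm, Finset.mem_univ e2⟩)]

omit [Fintype V] in
/-- a colouring lifts: `e2` gets the colour of `e1` -/
theorem TCol_spl (h1 : Jn f e1 s u) (h2 : Jn f e2 s v) (hne : e1 ≠ e2) (hu : u ≠ s) (hv : v ≠ s)
    {c : E → Fin m} (hc : TCol (spl f e1 e2 s u v) T m c) :
    TCol f T m (fun e => if e = e2 then c e1 else c e) := by
  intro i w
  rw [← hc i w]
  unfold dl
  rw [Finset.filter_filter, Finset.filter_filter, TCol_spl_sum _ hne, TCol_spl_sum _ hne]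
  have hr : (((Finset.univ.erase e1).erase e2).filter fun e =>
      (¬ ((f e).1 ∈ ({w} : Finset V) ↔ (f e).2 ∈ ({w} : Finset V))) ∧
        (if e = e2 then c e1 else c e) = i) =
      (((Finset.univ.erase e1).erase e2).filter fun e =>
      (¬ ((spl f e1 e2 s u v e).1 ∈ ({w} : Finset V) ↔
        (spl f e1 e2 s u v e).2 ∈ ({w} : Finset V))) ∧ c e = i) := by
    refine Finset.filter_congr fun e he => ?_
    simp only [Finset.mem_erase] at he
    simp only [spl, he.1, he.2.1, if_false]
  rw [hr]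
  have s1 : spl f e1 e2 s u v e1 = (u, v) := by simp [spl]
  have s2 : spl f e1 e2 s u v e2 = (s, s) := by simp [spl, hne.symm]
  rw [s1, s2]
  generalize (((Finset.univ.erase e1).erase e2).filter fun e =>
      (¬ ((spl f e1 e2 s u v e).1 ∈ ({w} : Finset V) ↔
        (spl f e1 e2 s u v e).2 ∈ ({w} : Finset V))) ∧ c e = i).card = r
  simp only [hne, if_false, if_true, Finset.mem_singleton, not_true, false_and]
  by_cases hi : c e1 = i
  · rcases h1 with h1 | h1 <;> rcases h2 with h2 | h2 <;> rw [h1, h2] <;>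
      by_cases a1 : s = w <;> by_cases a2 : u = w <;> by_cases a3 : v = w <;>
      simp [a1, a2, a3, hi, parity_simps]
  · simp [hi]
-- END TCol_spl

/-- the splitting step -/
theorem split_step (hg : Good f T k) (hs : s ∉ T ∧ 0 < d f {s} ∨ s ∈ T ∧ k < d f {s}) :
    ∃ f' : E → V × V, Good f' T k ∧ nl f' < nl f ∧
      ∀ (m : ℕ) (c' : E → Fin m), TCol f' T m c' → ∃ c : E → Fin m, TCol f T m c := by
  obtain ⟨e1, e2, u, v, hne, h1, h2, hu, hv, hX⟩ := exists_pair hg hs
  exact ⟨_, Good_spl hg h1 h2 hne hX, nl_spl h1 h2 hne hu hv,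
    fun m c' hc' => ⟨_, TCol_spl h1 h2 hne hu hv hc'⟩⟩

end Pool.Agent.Pmj
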